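import Pool.Agent.H877Z.Kir.LSS

set_option autoImplicit false

open Set Real Filter Topology
open scoped InnerProductSpace

noncomputable section

namespace Pool.Agent.H877Z.Kir

/-- a point of the unit sphere from coordinates -/
def mk3 (a b c : ℝ) (h : a ^ 2 + b ^ 2 + c ^ 2 = 1) :
    Metric.sphere (0 : EuclideanSpace ℝ (Fin 3)) 1 :=
  ⟨!₂[a, b, c], by
    rw [mem_sphere_zero_iff_norm, EuclideanSpace.norm_eq, Fin.sum_univ_three]
    simp [h]⟩

theorem sphereDist_mk3 (a b c a' b' c' : ℝ) (h : a ^ 2 + b ^ 2 + c ^ 2 = 1)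
    (h' : a' ^ 2 + b' ^ 2 + c' ^ 2 = 1) :
    sphereDist (mk3 a b c h) (mk3 a' b' c' h') = arccos (a * a' + b * b' + c * c') := by
  unfold sphereDist mk3
  congr 1
  simp [PiLp.inner_apply, Fin.sum_univ_three]
  ring

variable {U : Type*} [MetricSpace U]

theorem IsCAT1.side (hU : IsCAT1 U) {x y z : U} (h0 : 0 < dist x y)
    (hp : perimeter x y z < 2 * π) {γ : ℝ → U} (hγ : IsGeodesic γ x y) {t : ℝ}
    (ht : t ∈ Icc 0 (dist x y)) :
    dist (γ t) z ≤ π ∧ sin (dist x y - t) * cos (dist x z) + sin t * cos (dist y z) ≤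
      sin (dist x y) * cos (dist (γ t) z) := by
  have hp' := hp
  unfold perimeter at hp'
  rw [dist_comm z x] at hp'
  have t1 := dist_triangle_right x y z
  have t2 := dist_triangle x y z
  have t3 := dist_triangle_left y z x
  set d := dist x y with hd
  set A := dist x z with hA
  set B := dist y z with hB
  have A0 : 0 ≤ A := dist_nonneg
  have B0 : 0 ≤ B := dist_nonneg
  have sd : 0 < sin d := sin_pos_of_pos_of_lt_pi h0 (by linarith)
  have gl := gram_lower (a := A) (b := d) (c := B) B0 (by linarith) A0 h0.le (by linarith)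
    (by linarith) (by linarith) (by linarith)
  have gu := gram_upper (a := A) (b := d) (c := B) (by linarith) (by linarith) (by linarith)
  set v := (cos B - cos A * cos d) / sin d with hv
  have hv' : v * sin d = cos B - cos A * cos d := div_mul_cancel₀ _ sd.ne'
  have v1 : v ≤ sin A := by rw [hv, div_le_iff₀ sd]; linarith
  have v2 : -sin A ≤ v := by rw [hv, le_div_iff₀ sd]; linarith
  have v3 : 0 ≤ sin A ^ 2 - v ^ 2 := by nlinarith
  have hz : cos A ^ 2 + v ^ 2 + (√(sin A ^ 2 - v ^ 2)) ^ 2 = 1 := by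
    rw [sq_sqrt v3]; linarith [sin_sq_add_cos_sq A]
  have hx : (1 : ℝ) ^ 2 + 0 ^ 2 + 0 ^ 2 = 1 := by norm_num
  have hy : cos d ^ 2 + sin d ^ 2 + 0 ^ 2 = 1 := by linarith [sin_sq_add_cos_sq d]
  have hm : cos t ^ 2 + sin t ^ 2 + 0 ^ 2 = 1 := by linarith [sin_sq_add_cos_sq t]
  have k := hU.2.2.2 x y z hp γ hγ t ht (mk3 _ _ _ hx) (mk3 _ _ _ hy) (mk3 _ _ _ hz) (mk3 _ _ _ hm)
    (by rw [sphereDist_mk3]; simpa using arccos_cos h0.le (by linarith))
    (by
      rw [sphereDist_mk3, show cos d * cos A + sin d * v + 0 * √(sin A ^ 2 - v ^ 2) = cos B by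
        linarith]
      exact arccos_cos B0 (by linarith))
    (by rw [sphereDist_mk3, dist_comm z x]; simpa using arccos_cos A0 (by linarith))
    (by rw [sphereDist_mk3]; simpa using arccos_cos ht.1 (by linarith [ht.2]))
    (by
      rw [sphereDist_mk3, show cos t * cos d + sin t * sin d + 0 * 0 = cos (d - t) by
        rw [cos_sub]; ring]
      exact arccos_cos (by linarith [ht.2]) (by linarith [ht.1]))
  rw [sphereDist_mk3] at k
  refine ⟨k.trans (arccos_le_pi _), ?_⟩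
  have c := cos_anti dist_nonneg k (arccos_le_pi _)
  have st := sin_sq_add_cos_sq t
  have sA := sin_sq_add_cos_sq A
  rw [cos_arccos (by nlinarith [sq_nonneg (cos t + cos A), sq_nonneg (sin t + v)])
    (by nlinarith [sq_nonneg (cos t - cos A), sq_nonneg (sin t - v)])] at c
  have := mul_le_mul_of_nonneg_left c sd.le
  rw [sin_sub]
  have e : sin t * (v * sin d) = sin t * (cos B - cos A * cos d) := by rw [hv']
  nlinarith

/-- cosine of the truncated distance -/
def cs (x y : U) : ℝ := cos (min π (dist x y))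

theorem cs_comm (x y : U) : cs x y = cs y x := by unfold cs; rw [dist_comm]

theorem cs_self (x : U) : cs x x = 1 := by
  unfold cs; rw [dist_self, min_eq_right pi_pos.le, cos_zero]

theorem cs_le (x y : U) : cs x y ≤ 1 := cos_le_one _

theorem cs_ge (x y : U) : -1 ≤ cs x y := neg_one_le_cos _

theorem cs_eq {x y : U} (h : dist x y ≤ π) : cs x y = cos (dist x y) := by
  unfold cs; rw [min_eq_right h]

theorem min_nonneg' (x y : U) : 0 ≤ min π (dist x y) := le_min pi_pos.le dist_nonneg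

theorem min_tri (x y z : U) : min π (dist x z) ≤ min π (dist y z) + dist x y := by
  rcases le_total π (dist y z) with h | h
  · rw [min_eq_left h]; exact (min_le_left _ _).trans (by linarith [dist_nonneg (x := x) (y := y)])
  · rw [min_eq_right h]; exact (min_le_right _ _).trans (by linarith [dist_triangle x y z])

theorem IsCAT1.sum (hU : IsCAT1 U) (x y : U) {s t : ℝ} (hs : 0 ≤ s) (ht : 0 ≤ t) :
    ∃ (m : U) (R : ℝ), 0 ≤ R ∧ R ^ 2 = s ^ 2 + 2 * s * t * cs x y + t ^ 2 ∧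
      ∀ z : U, s * cs x z + t * cs y z ≤ R * cs m z := by
  rcases eq_or_lt_of_le (dist_nonneg (x := x) (y := y)) with h0 | h0
  · have e : x = y := dist_eq_zero.1 h0.symm
    subst e
    exact ⟨x, s + t, by linarith, by rw [cs_self]; ring, fun z => by linarith⟩
  rcases le_or_gt π (dist x y) with h1 | h1
  · have e : cs x y = -1 := by unfold cs; rw [min_eq_left h1, cos_pi]
    have k : ∀ z, cs x z + cs y z ≤ 0 := fun z => by
      have a : π - min π (dist y z) ≤ min π (dist x z) := by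
        refine le_min (by linarith [min_nonneg' y z]) ?_
        have := min_tri y z x
        rw [dist_comm y x, min_eq_left h1, dist_comm z x] at this
        have h2 := min_tri x z y
        rw [min_eq_left h1, dist_comm z y] at h2
        linarith
      have := cos_anti (by linarith [min_le_left π (dist y z)]) a (min_le_left _ _)
      rw [cos_pi_sub] at this
      unfold cs; linarith
    rcases le_total t s with c | c
    · exact ⟨x, s - t, by linarith, by rw [e]; ring, fun z => by nlinarith [mul_nonneg ht (neg_nonneg.2 (k z))]⟩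
    · exact ⟨y, t - s, by linarith, by rw [e]; ring, fun z => by nlinarith [mul_nonneg hs (neg_nonneg.2 (k z))]⟩
  obtain ⟨α, β, R, hα, hβ, e, hR, r1, r2, r3, r4, r5⟩ := polar h0 h1 hs ht
  have sd : 0 < sin (dist x y) := sin_pos_of_pos_of_lt_pi h0 h1
  obtain ⟨γ, hγ⟩ := hU.2.2.1 x y h1
  have hαm : α ∈ Icc 0 (dist x y) := ⟨hα, by linarith⟩
  have m1 : dist (γ α) x = α := by
    rw [← hγ.1, hγ.2.2 α hαm 0 ⟨le_rfl, h0.le⟩, sub_zero, abs_of_nonneg hα]
  have m2 : dist (γ α) y = β := by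
    have := hγ.2.2 α hαm _ ⟨h0.le, le_rfl⟩
    rw [hγ.2.1] at this
    rw [this, abs_sub_comm, abs_of_nonneg (by linarith)]; linarith
  refine ⟨γ α, R, hR, by rw [cs_eq h1.le]; exact r5, fun z => ?_⟩
  have a0 := min_nonneg' x z
  have b0 := min_nonneg' y z
  have c0 := min_nonneg' (γ α) z
  have a1 := min_le_left π (dist x z)
  have b1 := min_le_left π (dist y z)
  have ca := min_tri (γ α) x z
  have cb := min_tri (γ α) y z
  have ab := min_tri x y z
  have ba := min_tri y x z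
  rw [m1] at ca
  rw [m2] at cb
  rw [dist_comm y x] at ba
  by_cases hp : min π (dist x z) + min π (dist y z) + dist x y < 2 * π
  · have ea : dist x z ≤ π := by
      by_contra hc
      rw [min_eq_left (not_le.1 hc).le] at hp ab
      linarith
    have eb : dist y z ≤ π := by
      by_contra hc
      rw [min_eq_left (not_le.1 hc).le] at hp ba
      linarith
    rw [min_eq_right ea, min_eq_right eb] at hp
    obtain ⟨k1, k2⟩ := hU.side (z := z) h0 (by unfold perimeter; rw [dist_comm z x]; linarith) hγ hαm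
    rw [cs_eq ea, cs_eq eb, cs_eq k1]
    refine le_of_mul_le_mul_left ?_ sd
    have k := mul_le_mul_of_nonneg_left k2 hR
    rw [show dist x y - α = β by linarith] at k
    have e1 : R * (sin β * cos (dist x z)) = sin (dist x y) * (s * cos (dist x z)) := by
      rw [← mul_assoc, r1]; ring
    have e2 : R * (sin α * cos (dist y z)) = sin (dist x y) * (t * cos (dist y z)) := by
      rw [← mul_assoc, r2]; ring
    nlinarith
  · push Not at hp
    unfold cs
    set a := min π (dist x z)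
    set b := min π (dist y z)
    set c := min π (dist (γ α) z)
    set d := dist x y
    have id1 : ∀ u : ℝ, s * cos u + t * cos (d - u) = R * cos (u - α) := fun u => by
      rw [cos_sub, cos_sub]
      linear_combination (-cos u) * r3 - sin u * r2
    rcases le_total α (π - a) with p | p
    · have q1 : cos (d - (π - a)) ≤ cos (π - b) := cos_anti (by linarith) (by linarith) (by linarith)
      have q2 : cos (π - (π - a - α)) ≤ cos c := cos_anti c0 (by linarith) (by linarith)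
      have q3 := id1 (π - a)
      rw [cos_pi_sub] at q1 q2 q3
      nlinarith [mul_le_mul_of_nonneg_left q1 ht, mul_le_mul_of_nonneg_left q2 hR]
    rcases le_total β (π - b) with p' | p'
    · have q1 : cos (d - (π - b)) ≤ cos (π - a) := cos_anti (by linarith) (by linarith) (by linarith)
      have q2 : cos (π - (π - b - β)) ≤ cos c := cos_anti c0 (by linarith) (by linarith)
      have q3 := id1 (d - (π - b))
      rw [show d - (d - (π - b)) = π - b by ring,
        show d - (π - b) - α = -(π - b - β) by linarith, cos_neg] at q3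
      rw [cos_pi_sub] at q1 q2 q3
      nlinarith [mul_le_mul_of_nonneg_left q1 hs, mul_le_mul_of_nonneg_left q2 hR]
    · have q1 : cos α ≤ cos (π - a) := cos_anti (by linarith) p (by linarith)
      have q2 : cos β ≤ cos (π - b) := cos_anti (by linarith) p' (by linarith)
      have q3 := id1 α
      rw [show d - α = β by linarith, sub_self, cos_zero] at q3
      rw [cos_pi_sub] at q1 q2
      nlinarith [mul_le_mul_of_nonneg_left q1 hs, mul_le_mul_of_nonneg_left q2 ht,
        mul_le_mul_of_nonneg_left (neg_one_le_cos c) hR]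

theorem cauchy_of_cs {x : ℕ → U} (h : ∀ ε > 0, ∃ N, ∀ n ≥ N, ∀ m ≥ N, 1 - ε ≤ cs (x n) (x m)) :
    CauchySeq x := by
  rw [Metric.cauchySeq_iff]
  intro δ hδ
  have h1 : 0 < min π δ := lt_min pi_pos hδ
  have h2 : cos (min π δ) < 1 := by
    have := cos_lt_cos_of_nonneg_of_le_pi le_rfl (min_le_left π δ) h1
    rwa [cos_zero] at this
  obtain ⟨N, hN⟩ := h ((1 - cos (min π δ)) / 2) (by linarith)
  refine ⟨N, fun n hn m hm => ?_⟩
  by_contra hc
  have := cos_anti h1.le (min_le_min_left π (not_lt.1 hc)) (min_le_left _ _)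
  have k := hN n hn m hm
  unfold cs at k
  linarith

theorem continuous_cs (u : U) : Continuous fun x : U => cs x u := by
  unfold cs; fun_prop

theorem cone_complete [CompleteSpace U] {g : ℕ → NNReal × U}
    (h : ∀ ε > 0, ∃ N, ∀ n ≥ N, ∀ m ≥ N,
      ((g n).1 : ℝ) ^ 2 - 2 * (g n).1 * (g m).1 * cs (g n).2 (g m).2 + (g m).1 ^ 2 ≤ ε) :
    ∃ y : NNReal × U, Tendsto (fun n => ((g n).1 : ℝ)) atTop (𝓝 y.1) ∧
      ∀ u, Tendsto (fun n => ((g n).1 : ℝ) * cs (g n).2 u) atTop (𝓝 (y.1 * cs y.2 u)) := by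
  have hr : CauchySeq fun n => ((g n).1 : ℝ) := by
    rw [Metric.cauchySeq_iff]
    intro δ hδ
    obtain ⟨N, hN⟩ := h (δ ^ 2 / 2) (by positivity)
    refine ⟨N, fun n hn m hm => ?_⟩
    have k := hN n hn m hm
    have k2 := mul_le_mul_of_nonneg_left (cs_le (g n).2 (g m).2)
      (mul_nonneg (g n).1.coe_nonneg (g m).1.coe_nonneg)
    rw [Real.dist_eq]
    refine abs_lt_of_sq_lt_sq ?_ hδ.le
    nlinarith [sq_pos_of_pos hδ]
  obtain ⟨r, hr'⟩ := cauchySeq_tendsto_of_complete hr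
  have r0 : 0 ≤ r := ge_of_tendsto' hr' fun n => (g n).1.coe_nonneg
  rcases eq_or_lt_of_le r0 with e | e
  · refine ⟨(0, (g 0).2), by simpa [← e] using hr', fun u => ?_⟩
    rw [← e] at hr'
    simp only [NNReal.coe_zero, zero_mul]
    refine squeeze_zero_norm (fun n => ?_) hr'
    rw [norm_mul, Real.norm_of_nonneg (g n).1.coe_nonneg]
    exact mul_le_of_le_one_right (g n).1.coe_nonneg (abs_le.2 ⟨cs_ge _ _, cs_le _ _⟩)
  · have hx : CauchySeq fun n => (g n).2 := by
      refine cauchy_of_cs fun ε hε => ?_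
      obtain ⟨N, hN⟩ := h (r ^ 2 / 2 * ε) (by positivity)
      obtain ⟨N', hN'⟩ := eventually_atTop.1 (hr'.eventually (lt_mem_nhds (show r / 2 < r by linarith)))
      refine ⟨max N N', fun n hn m hm => ?_⟩
      have k := hN n ((le_max_left _ _).trans hn) m ((le_max_left _ _).trans hm)
      have k1 := hN' n ((le_max_right _ _).trans hn)
      have k2 := hN' m ((le_max_right _ _).trans hm)
      have k3 : r / 2 * (r / 2) ≤ ((g n).1 : ℝ) * (g m).1 :=
        mul_le_mul k1.le k2.le (by linarith) (g n).1.coe_nonneg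
      have k4 := mul_le_mul_of_nonneg_right k3 (sub_nonneg.2 (cs_le (g n).2 (g m).2))
      have k5 : r ^ 2 / 2 * (1 - cs (g n).2 (g m).2) ≤ r ^ 2 / 2 * ε := by
        nlinarith [sq_nonneg (((g n).1 : ℝ) - (g m).1)]
      have := le_of_mul_le_mul_left k5 (by positivity)
      linarith
    obtain ⟨x, hx'⟩ := cauchySeq_tendsto_of_complete hx
    exact ⟨(⟨r, r0⟩, x), hr', fun u => hr'.mul (((continuous_cs u).tendsto x).comp hx')⟩

theorem variational [CompleteSpace U] {Q : Type*} (f : Q → U) (c : Q → ℝ)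
    (S : Set ((NNReal × U) × ℝ)) (hne : S.Nonempty)
    (hb : ∀ p ∈ S, 2 * p.2 - (p.1.1 : ℝ) ^ 2 ≤ 1)
    (hmid : ∀ p ∈ S, ∀ p' ∈ S, ∃ g, (g, (p.2 + p'.2) / 2) ∈ S ∧
      4 * (g.1 : ℝ) ^ 2 = p.1.1 ^ 2 + 2 * p.1.1 * p'.1.1 * cs p.1.2 p'.1.2 + p'.1.1 ^ 2)
    (hadd : ∀ p ∈ S, ∀ (q : Q) (t : NNReal), ∃ g, (g, p.2 + t * c q) ∈ S ∧
      (g.1 : ℝ) ^ 2 = p.1.1 ^ 2 + 2 * p.1.1 * t * cs p.1.2 (f q) + t ^ 2) :
    ∃ (y : NNReal × U) (p : ℕ → (NNReal × U) × ℝ) (J : ℝ), (∀ n, p n ∈ S) ∧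
      Tendsto (fun n => ((p n).1.1 : ℝ)) atTop (𝓝 y.1) ∧
      Tendsto (fun n => 2 * (p n).2 - ((p n).1.1 : ℝ) ^ 2) atTop (𝓝 J) ∧
      (∀ p ∈ S, 2 * p.2 - (p.1.1 : ℝ) ^ 2 ≤ J) ∧ ∀ q, c q ≤ y.1 * cs y.2 (f q) := by
  let F : (NNReal × U) × ℝ → ℝ := fun p => 2 * p.2 - (p.1.1 : ℝ) ^ 2
  have bdd : BddAbove (F '' S) := ⟨1, by rintro _ ⟨p, hp, rfl⟩; exact hb p hp⟩
  obtain ⟨u, -, hu, hS⟩ := exists_seq_tendsto_sSup (hne.image F) bdd
  choose p hp hF using hS
  have hJ : ∀ p ∈ S, F p ≤ sSup (F '' S) := fun p hp => le_csSup bdd ⟨p, hp, rfl⟩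
  have tF : Tendsto (fun n => F (p n)) atTop (𝓝 (sSup (F '' S))) := by simpa only [hF] using hu
  obtain ⟨y, y1, y2⟩ := cone_complete (g := fun n => (p n).1) (by
    intro ε hε
    obtain ⟨N, hN⟩ := eventually_atTop.1 (tF.eventually
      (lt_mem_nhds (show sSup (F '' S) - ε / 4 < sSup (F '' S) by linarith)))
    refine ⟨N, fun n hn m hm => ?_⟩
    obtain ⟨g, g1, g2⟩ := hmid _ (hp n) _ (hp m)
    have a := hJ _ g1
    have b := hN n hn
    have c := hN m hm
    simp only [F] at a b c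
    linarith)
  refine ⟨y, p, _, hp, y1, tF, hJ, fun q => ?_⟩
  refine le_of_forall_pos_le_add fun t ht => ?_
  have k : ∀ n, F (p n) + 2 * t * (c q - (p n).1.1 * cs (p n).1.2 (f q)) - t ^ 2 ≤
      sSup (F '' S) := by
    intro n
    obtain ⟨g, g1, g2⟩ := hadd _ (hp n) q (Real.toNNReal t)
    have a := hJ _ g1
    simp only [F, Real.coe_toNNReal t ht.le] at a g2 ⊢
    linarith
  have lim := le_of_tendsto' ((tF.add (tendsto_const_nhds.mul
    (tendsto_const_nhds.sub (y2 (f q))))).sub tendsto_const_nhds) k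
  have : t * (c q - y.1 * cs y.2 (f q)) ≤ t * t := by nlinarith
  have := le_of_mul_le_mul_left this ht
  linarith

/-- `g` dominates the formal sum `l` -/
def Rep {Q : Type*} (f : Q → U) (l : List (NNReal × Q)) (g : NNReal × U) : Prop :=
  ∀ u : U, (lin l fun q => cs (f q) u) ≤ g.1 * cs g.2 u

theorem Rep.two {Q : Type*} {f : Q → U} {l l' : List (NNReal × Q)} {g g' : NNReal × U}
    (h : Rep f l g) (h' : Rep f l' g') :
    (lin l fun a => lin l' fun b => cs (f a) (f b)) ≤ g.1 * g'.1 * cs g.2 g'.2 := by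
  have k : (lin l fun a => lin l' fun b => cs (f a) (f b)) ≤
      lin l fun a => g'.1 * cs (f a) g'.2 := lin_mono l fun a => by
    simpa only [cs_comm (f a)] using h' (f a)
  rw [lin_mul] at k
  have := mul_le_mul_of_nonneg_left (h g'.2) g'.1.coe_nonneg
  linarith

theorem IsCAT1.add (hU : IsCAT1 U) (g g' : NNReal × U) : ∃ m : NNReal × U,
    (m.1 : ℝ) ^ 2 = g.1 ^ 2 + 2 * g.1 * g'.1 * cs g.2 g'.2 + g'.1 ^ 2 ∧
      ∀ u, g.1 * cs g.2 u + g'.1 * cs g'.2 u ≤ m.1 * cs m.2 u := by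
  obtain ⟨m, R, R0, R1, R2⟩ := hU.sum g.2 g'.2 g.1.coe_nonneg g'.1.coe_nonneg
  exact ⟨(⟨R, R0⟩, m), R1, R2⟩

theorem IsCAT1.exists_rep (hU : IsCAT1 U) [Nonempty U] {Q : Type*} (f : Q → U)
    (l : List (NNReal × Q)) : ∃ g, Rep f l g := by
  induction l with
  | nil => exact ⟨(0, Classical.arbitrary U), fun u => by simp [lin_nil]⟩
  | cons a l ih =>
    obtain ⟨g, hg⟩ := ih
    obtain ⟨m, -, m2⟩ := hU.add g (a.1, f a.2)
    exact ⟨m, fun u => by rw [lin_cons]; linarith [hg u, m2 u]⟩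

theorem IsCAT1.exists_short (hU : IsCAT1 U) [Nonempty U] {Q : Type*} (f : Q → U) (c : Q → ℝ)
    (hc : ∀ l : List (NNReal × Q), (lin l c) ^ 2 ≤ lin l fun a => lin l fun b => cs (f a) (f b)) :
    ∃ y : NNReal × U, (y.1 : ℝ) ≤ 1 ∧ ∀ q, c q ≤ y.1 * cs y.2 (f q) := by
  have := hU.1
  let S : Set ((NNReal × U) × ℝ) := {p | ∃ l, Rep f l p.1 ∧ p.2 = lin l c}
  have hle : ∀ p ∈ S, p.2 ≤ p.1.1 := by
    rintro p ⟨l, h1, h2⟩
    have k := (hc l).trans (h1.two h1)
    rw [cs_self, mul_one, ← h2, ← sq] at k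
    exact le_trans (le_abs_self _) (abs_le_of_sq_le_sq k p.1.1.coe_nonneg)
  obtain ⟨y, p, J, hp, t1, t2, hJ, hy⟩ := variational f c S
    ⟨((0, Classical.arbitrary U), 0), [], fun u => by simp [lin_nil], rfl⟩
    (fun p hp => by nlinarith [hle p hp, sq_nonneg ((p.1.1 : ℝ) - 1)])
    (by
      rintro p ⟨l, h1, h2⟩ p' ⟨l', h1', h2'⟩
      obtain ⟨m, m1, m2⟩ := hU.add p.1 p'.1
      refine ⟨(1 / 2 * m.1, m.2), ⟨scal (1 / 2) (l ++ l'), fun u => ?_, ?_⟩, ?_⟩
      · rw [lin_scal, lin_append]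
        push_cast
        linarith [h1 u, h1' u, m2 u]
      · rw [lin_scal, lin_append, ← h2, ← h2']; push_cast; ring
      · push_cast; linarith)
    (by
      rintro p ⟨l, h1, h2⟩ q t
      obtain ⟨m, m1, m2⟩ := hU.add p.1 (t, f q)
      refine ⟨m, ⟨(t, q) :: l, fun u => ?_, ?_⟩, m1⟩
      · rw [lin_cons]; linarith [h1 u, m2 u]
      · rw [lin_cons, ← h2]; ring)
  refine ⟨y, ?_, hy⟩
  have t3 : Tendsto (fun n => (p n).2) atTop (𝓝 ((J + y.1 ^ 2) / 2)) := by
    refine ((t2.add (t1.pow 2)).div_const 2).congr fun n => ?_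
    ring
  have a1 : (J + y.1 ^ 2) / 2 ≤ y.1 := le_of_tendsto_of_tendsto' t3 t1 fun n => hle _ (hp n)
  have a2 : ∀ s : NNReal, 2 * (s * ((J + y.1 ^ 2) / 2)) - (s * y.1) ^ 2 ≤ J := by
    intro s
    refine le_of_tendsto' (((t3.const_mul (s : ℝ)).const_mul 2).sub ((t1.const_mul (s : ℝ)).pow 2))
      fun n => ?_
    obtain ⟨l, h1, h2⟩ := hp n
    have := hJ ((s * (p n).1.1, (p n).1.2), s * (p n).2) ⟨scal s l, fun u => by
      rw [lin_scal]
      have := mul_le_mul_of_nonneg_left (h1 u) s.coe_nonneg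
      push_cast; linarith, by rw [lin_scal, ← h2]⟩
    simpa using this
  by_contra hcon
  push Not at hcon
  have hy0 : (0 : ℝ) < y.1 := by linarith
  have k := a2 (y.1)⁻¹
  rw [NNReal.coe_inv, inv_mul_cancel₀ hy0.ne'] at k
  have k' := mul_le_mul_of_nonneg_left k hy0.le
  have e : (y.1 : ℝ) * (2 * ((y.1 : ℝ)⁻¹ * ((J + y.1 ^ 2) / 2)) - 1 ^ 2) = J + y.1 ^ 2 - y.1 := by
    field_simp
  rw [e] at k'
  have k2 : ((y.1 : ℝ) - 1) * y.1 ≤ ((y.1 : ℝ) - 1) * J := by nlinarith
  have k3 := le_of_mul_le_mul_left k2 (by linarith)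
  nlinarith

theorem IsCAT1.exists_small (hU : IsCAT1 U) [Nonempty U] {Q : Type*} (f : Q → U)
    (hp : ∀ w : U, ∃ q, cs w (f q) < 0) (l0 : List (NNReal × Q)) {ε : ℝ} (hε : 0 < ε) :
    ∃ l g, Rep f (l0 ++ l) g ∧ (g.1 : ℝ) ≤ ε := by
  have := hU.1
  let S : Set ((NNReal × U) × ℝ) := {p | ∃ l, Rep f (l0 ++ l) p.1 ∧ p.2 = 0}
  obtain ⟨g0, hg0⟩ := hU.exists_rep f l0
  obtain ⟨y, p, J, hpS, t1, -, -, hy⟩ := variational f (fun _ => 0) S
    ⟨(g0, 0), [], by simpa using hg0, rfl⟩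
    (by rintro p ⟨l, -, h2⟩; rw [h2]; nlinarith [sq_nonneg (p.1.1 : ℝ)])
    (by
      rintro p ⟨l, h1, h2⟩ p' ⟨l', h1', h2'⟩
      obtain ⟨m, m1, m2⟩ := hU.add p.1 p'.1
      refine ⟨(1 / 2 * m.1, m.2), ⟨scal (1 / 2) (l ++ l'), fun u => ?_, ?_⟩, ?_⟩
      · have a := h1 u
        have b := h1' u
        rw [lin_append] at a b
        rw [lin_append, lin_scal, lin_append]
        push_cast
        linarith [m2 u]
      · simp [h2, h2']
      · push_cast; linarith)
    (by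
      rintro p ⟨l, h1, h2⟩ q t
      obtain ⟨m, m1, m2⟩ := hU.add p.1 (t, f q)
      refine ⟨m, ⟨(t, q) :: l, fun u => ?_, ?_⟩, m1⟩
      · have a := h1 u
        rw [lin_append] at a
        rw [lin_append, lin_cons]; linarith [m2 u]
      · simp [h2])
  have y0 : (y.1 : ℝ) = 0 := by
    obtain ⟨q, hq⟩ := hp y.2
    have := hy q
    nlinarith [y.1.coe_nonneg]
  rw [y0] at t1
  obtain ⟨n, hn⟩ := (t1.eventually (gt_mem_nhds hε)).exists
  obtain ⟨l, h1, -⟩ := hpS n
  exact ⟨l, _, h1, hn.le⟩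

end Pool.Agent.H877Z.Kir
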