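import Mathlib

set_option autoImplicit false

open Set Real
open scoped InnerProductSpace

noncomputable section

namespace Pool.Agent.H877Z.Kir

/-- Length space: the distance is the infimum of the lengths of curves. -/
def IsLengthSpace (X : Type*) [MetricSpace X] : Prop :=
  ∀ x y : X, ∀ ε : ℝ, 0 < ε → ∃ γ : ℝ → X, ContinuousOn γ (Icc 0 1) ∧ γ 0 = x ∧ γ 1 = y ∧
    eVariationOn γ (Icc 0 1) ≤ ENNReal.ofReal (dist x y + ε)

/-- The angle between the sides `a` and `b` of a triangle in the unit 2-sphere with sides
`a`, `b`, `c` (spherical law of cosines). -/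
def modelAngle (a b c : ℝ) : ℝ := arccos ((cos c - cos a * cos b) / (sin a * sin b))

/-- The perimeter of a triple of points. -/
def perimeter {X : Type*} [PseudoMetricSpace X] (x y z : X) : ℝ := dist x y + dist y z + dist z x

/-- The model angle at `p` of the triple `p, x, y`. -/
def angleAt {X : Type*} [PseudoMetricSpace X] (p x y : X) : ℝ :=
  modelAngle (dist p x) (dist p y) (dist x y)

/-- `Alex(1)`: a complete length space of diameter at most `π` in which, for every quadruple
`p; x, y, z` whose three model angles at `p` are defined, their sum is at most `2π`. -/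
def IsAlex1 (L : Type*) [MetricSpace L] : Prop :=
  CompleteSpace L ∧ IsLengthSpace L ∧ (∀ x y : L, dist x y ≤ π) ∧
    ∀ p x y z : L, x ≠ p → y ≠ p → z ≠ p →
      perimeter p x y < 2 * π → perimeter p y z < 2 * π → perimeter p z x < 2 * π →
      angleAt p x y + angleAt p y z + angleAt p z x ≤ 2 * π

/-- `γ` is a unit speed geodesic from `x` to `y`. -/
def IsGeodesic {X : Type*} [MetricSpace X] (γ : ℝ → X) (x y : X) : Prop :=
  γ 0 = x ∧ γ (dist x y) = y ∧
    ∀ s ∈ Icc 0 (dist x y), ∀ t ∈ Icc 0 (dist x y), dist (γ s) (γ t) = |s - t|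

/-- The angle metric on the unit 2-sphere. -/
def sphereDist (a b : Metric.sphere (0 : EuclideanSpace ℝ (Fin 3)) 1) : ℝ :=
  arccos ⟪(a : EuclideanSpace ℝ (Fin 3)), (b : EuclideanSpace ℝ (Fin 3))⟫_ℝ

/-- `CAT(1)`: a complete length space in which points at distance less than `π` are joined by
geodesics and, in every triangle of perimeter less than `2π`, the distance from a vertex to a
point of the opposite side is at most the corresponding distance in the comparison triangle in the
unit 2-sphere. -/
def IsCAT1 (U : Type*) [MetricSpace U] : Prop :=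
  CompleteSpace U ∧ IsLengthSpace U ∧
    (∀ x y : U, dist x y < π → ∃ γ : ℝ → U, IsGeodesic γ x y) ∧
    ∀ x y z : U, perimeter x y z < 2 * π → ∀ γ : ℝ → U, IsGeodesic γ x y →
      ∀ t ∈ Icc 0 (dist x y), ∀ x' y' z' m' : Metric.sphere (0 : EuclideanSpace ℝ (Fin 3)) 1,
        sphereDist x' y' = dist x y → sphereDist y' z' = dist y z → sphereDist z' x' = dist z x →
        sphereDist x' m' = t → sphereDist m' y' = dist x y - t →
        dist (γ t) z ≤ sphereDist m' z'

/-- A short map: a map that does not increase distances. -/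
def IsShort {X Y : Type*} [MetricSpace X] [MetricSpace Y] (f : X → Y) : Prop :=
  ∀ a b : X, dist (f a) (f b) ≤ dist a b

/-- `f : Q → U` has no short extension to a strictly larger subset of `L`. -/
def IsMaximalShort {L U : Type*} [MetricSpace L] [MetricSpace U] (Q : Set L) (f : Q → U) : Prop :=
  IsShort f ∧ ¬ ∃ (Q' : Set L) (h : Q ⊂ Q') (g : Q' → U),
    IsShort g ∧ ∀ q : Q, g ⟨q.1, h.1 q.2⟩ = f q

end Pool.Agent.H877Z.Kir
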