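import Pool.Agent.H877Z.Kir.Trig

set_option autoImplicit false

open Set Real

noncomputable section

namespace Pool.Agent.H877Z.Kir

variable {X : Type*} [PseudoMetricSpace X]

/-- unit speed segment of length `l` -/
def Line (γ : ℝ → X) (l : ℝ) : Prop :=
  ∀ s ∈ Icc 0 l, ∀ t ∈ Icc 0 l, dist (γ s) (γ t) = |s - t|

/-- geodesic version of the lower curvature bound -/
structure GeoAlex (X : Type*) [PseudoMetricSpace X] : Prop where
  diam : ∀ x y : X, dist x y ≤ π
  quad : ∀ p x y z : X, 0 < dist p x → 0 < dist p y → 0 < dist p z →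
      perimeter p x y < 2 * π → perimeter p y z < 2 * π → perimeter p z x < 2 * π →
      angleAt p x y + angleAt p y z + angleAt p z x ≤ 2 * π
  geo : ∀ x y : X, ∃ γ : ℝ → X, Line γ (dist x y) ∧ (∀ z, dist z (γ 0) = dist z x) ∧
      ∀ z, dist z (γ (dist x y)) = dist z y

theorem Line.dist_le {γ : ℝ → X} {l : ℝ} (h : Line γ l) {s t : ℝ} (hs : 0 ≤ s) (hst : s ≤ t)
    (ht : t ≤ l) : dist (γ s) (γ t) = t - s := by
  rw [h s ⟨hs, hst.trans ht⟩ t ⟨hs.trans hst, ht⟩, abs_sub_comm, abs_of_nonneg (by linarith)]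

theorem Line.continuousOn {γ : ℝ → X} {l : ℝ} (h : Line γ l) : ContinuousOn γ (Icc 0 l) := by
  refine LipschitzOnWith.continuousOn (K := 1) (LipschitzOnWith.of_dist_le_mul fun s hs t ht => ?_)
  rw [h s hs t ht, Real.dist_eq]
  simp

theorem Line.shift {γ : ℝ → X} {l : ℝ} (h : Line γ l) {a m : ℝ} (ha : 0 ≤ a) (hm : a + m ≤ l) :
    Line (fun s => γ (a + s)) m := by
  intro s hs t ht
  rw [h _ ⟨by linarith [hs.1], by linarith [hs.2]⟩ _ ⟨by linarith [ht.1], by linarith [ht.2]⟩]
  congr 1; ring

theorem Line.rev {γ : ℝ → X} {l : ℝ} (h : Line γ l) {a : ℝ} (ha : a ≤ l) :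
    Line (fun s => γ (a - s)) a := by
  intro s hs t ht
  rw [h _ ⟨by linarith [hs.2], by linarith [hs.1]⟩ _ ⟨by linarith [ht.2], by linarith [ht.1]⟩,
    abs_sub_comm]
  congr 1; ring

theorem dist_congr0 {a b : X} (h : dist a b = 0) (z : X) : dist a z = dist b z := by
  have h1 := dist_triangle a b z
  have h2 := dist_triangle b a z
  rw [dist_comm b a] at h2
  linarith

theorem cos_angleAt {p x y : X} (hx : 0 < dist p x) (hy : 0 < dist p y)
    (h : perimeter p x y < 2 * π) :
    cos (angleAt p x y) * (sin (dist p x) * sin (dist p y)) =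
      cos (dist x y) - cos (dist p x) * cos (dist p y) := by
  unfold perimeter at h
  rw [dist_comm y p] at h
  refine cos_modelAngle hx hy dist_nonneg (dist_triangle_left _ _ _) ?_ (dist_triangle _ _ _)
    (by linarith)
  exact dist_triangle_right _ _ _

theorem angleAt_straight {p x y : X} (hx : 0 < dist p x) (hy : 0 < dist p y)
    (h : dist x y = dist p x + dist p y) (h' : dist x y < π) : angleAt p x y = π := by
  unfold angleAt
  rw [h]
  exact modelAngle_straight hx hy (h ▸ h')

theorem per_straight {p x y : X} (h : dist x y = dist p x + dist p y) (h' : dist x y < π) :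
    perimeter p x y < 2 * π := by
  unfold perimeter
  rw [dist_comm y p]
  linarith

namespace GeoAlex

variable (H : GeoAlex X)
include H

theorem side {m x y z : X} (hx : 0 < dist m x) (hy : 0 < dist m y) (hz : 0 < dist m z)
    (h : dist x y = dist m x + dist m y) (h' : dist x y < π)
    (p1 : perimeter m y z < 2 * π) (p2 : perimeter m z x < 2 * π) :
    sin (dist x y) * cos (dist m z) ≤
      sin (dist m y) * cos (dist x z) + sin (dist m x) * cos (dist y z) := by
  have q := H.quad m x y z hx hy hz (per_straight h h') p1 p2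
  rw [angleAt_straight hx hy h h'] at q
  have c1 := cos_angleAt hy hz p1
  have c2 := cos_angleAt hz hx p2
  have n1 : 0 ≤ angleAt m y z := modelAngle_nonneg _ _ _
  have n2 : 0 ≤ angleAt m z x := modelAngle_nonneg _ _ _
  have c3 : cos (π - angleAt m z x) ≤ cos (angleAt m y z) :=
    cos_anti n1 (by linarith) (by linarith)
  rw [cos_pi_sub] at c3
  have s1 : 0 ≤ sin (dist m x) := sin_nonneg_of_nonneg_of_le_pi dist_nonneg (H.diam _ _)
  have s2 : 0 ≤ sin (dist m y) := sin_nonneg_of_nonneg_of_le_pi dist_nonneg (H.diam _ _)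
  have s3 : 0 ≤ sin (dist m z) := sin_nonneg_of_nonneg_of_le_pi dist_nonneg (H.diam _ _)
  have k : 0 ≤ sin (dist m x) * sin (dist m y) * sin (dist m z) *
      (cos (angleAt m y z) + cos (angleAt m z x)) :=
    mul_nonneg (mul_nonneg (mul_nonneg s1 s2) s3) (by linarith)
  rw [h, sin_add, dist_comm x z]
  nlinarith

theorem lineA' {γ : ℝ → X} {l : ℝ} (h : Line γ l) (hl0 : 0 ≤ l) (hl : l < π) (x : X)
    (hx : ∀ t ∈ Ioo 0 l, dist x (γ t) < π) :
    dist x (γ 0) + dist x (γ l) + l ≤ 2 * π := by
  set g : ℝ → ℝ := fun t => cos (dist x (γ t)) with hg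
  have hgc : ContinuousOn g (Icc 0 l) :=
    continuous_cos.comp_continuousOn ((continuous_const.dist continuous_id).comp_continuousOn h.continuousOn)
  have hsl : 0 ≤ sin l := sin_nonneg_of_nonneg_of_le_pi hl0 hl.le
  have key := max_principle (u := fun t => sin l * g t - (sin (l - t) * g 0 + sin t * g l)) hl0 hl
    ((continuousOn_const.mul hgc).sub (by fun_prop)) (by simp) (by simp) (by
      intro t ht
      have hc := hx t ht
      refine ⟨min t (min (l - t) (π - dist x (γ t))), lt_min ht.1 (lt_min (by linarith [ht.2])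
        (by linarith)), fun k hk0 hk => ?_⟩
      have k1 : k < t := hk.trans_le (min_le_left _ _)
      have k2 : k < l - t := hk.trans_le ((min_le_right _ _).trans (min_le_left _ _))
      have k3 : k < π - dist x (γ t) := hk.trans_le ((min_le_right _ _).trans (min_le_right _ _))
      have d1 : dist (γ t) (γ (t - k)) = k := by
        rw [dist_comm, h.dist_le (by linarith) (by linarith) ht.2.le]; ring
      have d2 : dist (γ t) (γ (t + k)) = k := by
        rw [h.dist_le ht.1.le (by linarith) (by linarith)]; ring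
      have d3 : dist (γ (t - k)) (γ (t + k)) = k + k := by
        rw [h.dist_le (by linarith) (by linarith) (by linarith)]; ring
      have main : 2 * cos k * g t ≤ g (t - k) + g (t + k) := by
        rcases eq_or_lt_of_le (dist_nonneg (x := x) (y := γ t)) with h0 | h0
        · simp only [hg]
          rw [dist_congr0 h0.symm (γ (t - k)), dist_congr0 h0.symm (γ (t + k)), d1, d2, ← h0,
            cos_zero]
          linarith
        · have t1 := dist_triangle (γ (t + k)) (γ t) x
          have t2 := dist_triangle x (γ t) (γ (t - k))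
          rw [dist_comm (γ (t + k)) (γ t), d2, dist_comm (γ t) x] at t1
          rw [d1] at t2
          have s := H.side (m := γ t) (x := γ (t - k)) (y := γ (t + k)) (z := x)
            (by rw [d1]; exact hk0) (by rw [d2]; exact hk0) (by rw [dist_comm]; exact h0)
            (by rw [d1, d2, d3]) (by rw [d3]; linarith)
            (by unfold perimeter; rw [d2]; linarith)
            (by unfold perimeter; rw [dist_comm (γ (t - k)), d1, dist_comm (γ t) x]; linarith)
          rw [d1, d2, d3, sin_add, dist_comm (γ t) x, dist_comm (γ (t - k)) x,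
            dist_comm (γ (t + k)) x] at s
          have sk : 0 < sin k := sin_pos_of_pos_of_lt_pi hk0 (by linarith)
          refine le_of_mul_le_mul_left ?_ sk
          simp only [hg]
          linarith
      have e1 : sin (l - (t - k)) + sin (l - (t + k)) = 2 * cos k * sin (l - t) := by
        rw [show l - (t - k) = (l - t) + k by ring, show l - (t + k) = (l - t) - k by ring,
          sin_add (l - t), sin_sub (l - t)]
        ring
      have e2 : sin (t - k) + sin (t + k) = 2 * cos k * sin t := by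
        rw [sin_add, sin_sub]; ring
      have := mul_le_mul_of_nonneg_left main hsl
      have e3 : sin (l - (t - k)) * g 0 + sin (l - (t + k)) * g 0 =
          2 * cos k * sin (l - t) * g 0 := by rw [← add_mul, e1]
      have e4 : sin (t - k) * g l + sin (t + k) * g l = 2 * cos k * sin t * g l := by
        rw [← add_mul, e2]
      nlinarith)
  by_contra hcon
  push Not at hcon
  have ha := H.diam x (γ 0)
  have hb := H.diam x (γ l)
  set a := dist x (γ 0) with hadef
  set b := dist x (γ l) with hbdef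
  set t0 := (π - a) + (a + b + l - 2 * π) / 2 with ht0
  have t1 : π - a < t0 := by rw [ht0]; linarith
  have t2 : π - b < l - t0 := by rw [ht0]; linarith
  have k := key t0 ⟨by linarith, by linarith⟩
  have g0 : g 0 < -cos t0 := by
    have := cos_lt_cos_of_nonneg_of_le_pi (x := π - a) (y := t0) (by linarith) (by linarith) t1
    rw [cos_pi_sub] at this
    simp only [hg]; linarith
  have gl : g l < -cos (l - t0) := by
    have := cos_lt_cos_of_nonneg_of_le_pi (x := π - b) (y := l - t0) (by linarith) (by linarith) t2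
    rw [cos_pi_sub] at this
    simp only [hg]; linarith
  have s1 : 0 < sin t0 := sin_pos_of_pos_of_lt_pi (by linarith) (by linarith)
  have s2 : 0 < sin (l - t0) := sin_pos_of_pos_of_lt_pi (by linarith) (by linarith)
  have s3 : sin l = sin t0 * cos (l - t0) + cos t0 * sin (l - t0) := by
    rw [← sin_add]; congr 1; ring
  have g1 : -1 ≤ g t0 := neg_one_le_cos _
  have a1 := mul_lt_mul_of_pos_left g0 s2
  have a2 := mul_lt_mul_of_pos_left gl s1
  have a3 := mul_le_mul_of_nonneg_left g1 hsl
  linarith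

theorem lineA {γ : ℝ → X} {l : ℝ} (h : Line γ l) (hl0 : 0 ≤ l) (hl : l ≤ π) (x : X)
    (hx : ∀ t ∈ Ioo 0 l, dist x (γ t) < π) :
    dist x (γ 0) + dist x (γ l) + l ≤ 2 * π := by
  by_contra hcon
  push Not at hcon
  have ha := H.diam x (γ 0)
  have hb := H.diam x (γ l)
  set δ := dist x (γ 0) + dist x (γ l) + l - 2 * π with hδ
  have hδ0 : 0 < δ := by rw [hδ]; linarith
  have hδl : δ ≤ l := by rw [hδ]; linarith
  have hl' : Line γ (l - δ / 4) := fun s hs t ht =>
    h s ⟨hs.1, by linarith [hs.2]⟩ t ⟨ht.1, by linarith [ht.2]⟩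
  have k := H.lineA' hl' (by linarith) (by linarith) x
    (fun t ht => hx t ⟨ht.1, by linarith [ht.2]⟩)
  have t1 := dist_triangle x (γ (l - δ / 4)) (γ l)
  rw [h.dist_le (by linarith) (by linarith) le_rfl] at t1
  linarith

theorem firstB {γ : ℝ → X} {l : ℝ} (h : Line γ l) (hl0 : 0 ≤ l) (hl : l ≤ π) (x : X)
    (hx : dist x (γ l) = π) :
    ∃ t ∈ Icc 0 l, dist x (γ t) = π ∧ dist x (γ 0) + t ≤ π ∧ ∀ s ∈ Ico 0 t, dist x (γ s) < π := by
  set S := {t ∈ Icc 0 l | dist x (γ t) = π} with hS
  have hSc : IsClosed S := by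
    have : ContinuousOn (fun t => dist x (γ t)) (Icc 0 l) :=
      (continuous_const.dist continuous_id).comp_continuousOn h.continuousOn
    exact this.preimage_isClosed_of_isClosed isClosed_Icc (isClosed_singleton (x := π))
  have hSn : S.Nonempty := ⟨l, ⟨hl0, le_rfl⟩, hx⟩
  have hSb : BddBelow S := ⟨0, fun t ht => ht.1.1⟩
  have hs := hSc.csInf_mem hSn hSb
  have hlt : ∀ s ∈ Ico 0 (sInf S), dist x (γ s) < π := by
    intro s hs'
    refine lt_of_le_of_ne (H.diam _ _) fun heq => ?_
    have := csInf_le hSb (show s ∈ S from ⟨⟨hs'.1, hs'.2.le.trans hs.1.2⟩, heq⟩)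
    linarith [hs'.2]
  refine ⟨sInf S, hs.1, hs.2, ?_, hlt⟩
  have hl' : Line γ (sInf S) := fun s hs' t ht =>
    h s ⟨hs'.1, hs'.2.trans hs.1.2⟩ t ⟨ht.1, ht.2.trans hs.1.2⟩
  have k := H.lineA hl' hs.1.1 (hs.1.2.trans hl) x (fun t ht => hlt t ⟨ht.1.le, ht.2⟩)
  rw [hs.2] at k
  linarith

theorem midC {γ : ℝ → X} {l : ℝ} (h : Line γ l) (hl : l ≤ π) (x : X)
    (h0 : dist x (γ 0) = π) (h1 : dist x (γ l) = π) : ∀ s ∈ Icc 0 l, dist x (γ s) = π := by
  intro s hs
  by_contra hne
  have hlt : dist x (γ s) < π := lt_of_le_of_ne (H.diam _ _) hne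
  obtain ⟨t1, ht1, a1, -, b1⟩ := H.firstB (h.rev hs.2) hs.1 (hs.2.trans hl) x (by simpa using h0)
  obtain ⟨t2, ht2, a2, -, b2⟩ := H.firstB (h.shift (m := l - s) hs.1 (by linarith))
    (by linarith [hs.2]) (by linarith [hs.1]) x (by simpa using h1)
  have p1 : 0 < t1 := lt_of_le_of_ne ht1.1 (fun e => by
    rw [← e] at a1
    simp only [sub_zero] at a1
    exact hne a1)
  have k := H.lineA (h.shift (a := s - t1) (m := t1 + t2) (by linarith [ht1.2])
    (by linarith [ht2.2])) (by linarith [ht2.1]) (by linarith [ht1.2, ht2.2]) x (by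
      intro t ht
      rcases le_total t t1 with c | c
      · have := b1 (t1 - t) ⟨by linarith, by linarith [ht.1]⟩
        rwa [show s - (t1 - t) = s - t1 + t by ring] at this
      · have := b2 (t - t1) ⟨by linarith, by linarith [ht.2]⟩
        rwa [show s + (t - t1) = s - t1 + t by ring] at this)
  simp only [add_zero] at k a1 a2
  rw [show s - t1 + (t1 + t2) = s + t2 by ring, a1, a2] at k
  linarith [ht2.1]

theorem through {x u v w x' : X} (hv : dist x v = π) (hu : dist x u = π)
    (h1 : dist x w = 3 * π / 4) (h2 : dist w v = π / 4) (h3 : dist x x' = π / 2)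
    (h4 : dist w x' = π / 4) : dist w u = π / 4 + dist v u := by
  obtain ⟨σ, hσ, s0, s1⟩ := H.geo w u
  obtain ⟨t, ht, a, b, -⟩ := H.firstB hσ dist_nonneg (H.diam _ _) x (by rw [s1, hu])
  have pp := pi_pos
  rw [s0, h1] at b
  have d1 : dist w (σ t) = t := by
    rw [dist_comm, ← s0, dist_comm, hσ.dist_le le_rfl ht.1 ht.2, sub_zero]
  have t1 := dist_triangle x w (σ t)
  have te : t = π / 4 := by linarith
  rw [te] at d1 a
  have e1 : dist x' v = dist w x' + dist w v := by
    have := dist_triangle x x' v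
    have := dist_triangle_left x' v w
    linarith
  have e2 : dist (σ (π / 4)) x' = dist w (σ (π / 4)) + dist w x' := by
    have := dist_triangle_right x (σ (π / 4)) x'
    have := dist_triangle_left (σ (π / 4)) x' w
    linarith
  have p2 : perimeter w v (σ (π / 4)) < 2 * π := by
    unfold perimeter
    have := dist_triangle_left v (σ (π / 4)) w
    rw [dist_comm (σ (π / 4)) w]
    linarith
  have q := H.quad w x' v (σ (π / 4)) (by linarith) (by linarith) (by linarith)
    (per_straight e1 (by linarith)) p2 (per_straight e2 (by linarith))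
  rw [angleAt_straight (by linarith) (by linarith) e1 (by linarith),
    angleAt_straight (by linarith) (by linarith) e2 (by linarith)] at q
  have z : angleAt w v (σ (π / 4)) = 0 := le_antisymm (by linarith) (modelAngle_nonneg _ _ _)
  have c := cos_angleAt (p := w) (x := v) (y := σ (π / 4)) (by linarith) (by linarith) p2
  rw [z, cos_zero, h2, d1] at c
  have c1 : cos (dist v (σ (π / 4))) = 1 := by nlinarith [sin_sq_add_cos_sq (π / 4)]
  have c2 : dist v (σ (π / 4)) = 0 := by
    by_contra hne
    have := cos_lt_cos_of_nonneg_of_le_pi le_rfl (H.diam v (σ (π / 4)))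
      (lt_of_le_of_ne dist_nonneg (Ne.symm hne))
    rw [cos_zero] at this
    linarith
  rw [dist_congr0 c2 u, ← s1 (σ (π / 4)), hσ.dist_le (by linarith) (te ▸ ht.2) le_rfl]
  ring

theorem uniqC {x u v : X} (hu : dist x u = π) (hv : dist x v = π) : dist u v = 0 := by
  by_contra hne
  have pp := pi_pos
  have hδ : 0 < dist u v := lt_of_le_of_ne dist_nonneg (Ne.symm hne)
  have hδ' := H.diam u v
  obtain ⟨γ, hγ, g0, g1⟩ := H.geo u v
  have all := H.midC hγ hδ' x (by rw [g0, hu]) (by rw [g1, hv])
  set δ := dist u v with hδdef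
  have a0 := all 0 ⟨le_rfl, hδ.le⟩
  have a1 := all (δ / 4) ⟨by linarith, by linarith⟩
  have a2 := all (δ / 2) ⟨by linarith, by linarith⟩
  obtain ⟨τ, hτ, t0, t1⟩ := H.geo x (γ (δ / 4))
  rw [a1] at hτ t1
  have w1 : dist x (τ (3 * π / 4)) = 3 * π / 4 := by
    rw [dist_comm, ← t0, dist_comm, hτ.dist_le le_rfl (by linarith) (by linarith), sub_zero]
  have w2 : dist (τ (3 * π / 4)) (γ (δ / 4)) = π / 4 := by
    rw [← t1, hτ.dist_le (by linarith) (by linarith) le_rfl]; ring
  have w3 : dist x (τ (π / 2)) = π / 2 := by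
    rw [dist_comm, ← t0, dist_comm, hτ.dist_le le_rfl (by linarith) (by linarith), sub_zero]
  have w4 : dist (τ (3 * π / 4)) (τ (π / 2)) = π / 4 := by
    rw [dist_comm, hτ.dist_le (by linarith) (by linarith) (by linarith)]; ring
  have b0 := H.through a1 a0 w1 w2 w3 w4
  have b2 := H.through a1 a2 w1 w2 w3 w4
  have d0 : dist (γ (δ / 4)) (γ 0) = δ / 4 := by
    rw [dist_comm, hγ.dist_le le_rfl (by linarith) (by linarith), sub_zero]
  have d2 : dist (γ (δ / 4)) (γ (δ / 2)) = δ / 4 := by
    rw [hγ.dist_le (by linarith) (by linarith) (by linarith)]; ring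
  have d3 : dist (γ 0) (γ (δ / 2)) = δ / 2 := by
    rw [hγ.dist_le le_rfl (by linarith) (by linarith), sub_zero]
  have w2' : dist (γ (δ / 4)) (τ (3 * π / 4)) = π / 4 := by rw [dist_comm, w2]
  have e1 : dist (τ (3 * π / 4)) (γ 0) =
      dist (γ (δ / 4)) (τ (3 * π / 4)) + dist (γ (δ / 4)) (γ 0) := by rw [b0, w2']
  have e2 : dist (γ 0) (γ (δ / 2)) = dist (γ (δ / 4)) (γ 0) + dist (γ (δ / 4)) (γ (δ / 2)) := by
    rw [d0, d2, d3]; ring
  have e3 : dist (γ (δ / 2)) (τ (3 * π / 4)) =
      dist (γ (δ / 4)) (γ (δ / 2)) + dist (γ (δ / 4)) (τ (3 * π / 4)) := by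
    rw [dist_comm, b2, w2']; ring
  have q := H.quad (γ (δ / 4)) (τ (3 * π / 4)) (γ 0) (γ (δ / 2)) (by linarith) (by linarith)
    (by linarith) (per_straight e1 (by linarith)) (per_straight e2 (by linarith))
    (per_straight e3 (by linarith))
  rw [angleAt_straight (by linarith) (by linarith) e1 (by linarith),
    angleAt_straight (by linarith) (by linarith) e2 (by linarith),
    angleAt_straight (by linarith) (by linarith) e3 (by linarith)] at q
  linarith

theorem perim (x y z : X) : dist x y + dist x z + dist y z ≤ 2 * π := by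
  obtain ⟨γ, hγ, g0, g1⟩ := H.geo y z
  by_cases hc : ∀ t ∈ Ioo 0 (dist y z), dist x (γ t) < π
  · have := H.lineA hγ dist_nonneg (H.diam _ _) x hc
    rwa [g0, g1] at this
  · push Not at hc
    obtain ⟨s, hs, hsx⟩ := hc
    have hsx' : dist x (γ s) = π := le_antisymm (H.diam _ _) hsx
    have hl := H.diam y z
    have hl1 : Line γ s := fun a ha b hb =>
      hγ a ⟨ha.1, ha.2.trans hs.2.le⟩ b ⟨hb.1, hb.2.trans hs.2.le⟩
    obtain ⟨t1, ht1, a1, b1, -⟩ := H.firstB hl1 hs.1.le (by linarith [hs.2]) x hsx'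
    have hl2 : Line (fun r => γ (dist y z - r)) (dist y z - s) := fun a ha b hb =>
      hγ.rev le_rfl a ⟨ha.1, by linarith [ha.2, hs.1]⟩ b ⟨hb.1, by linarith [hb.2, hs.1]⟩
    obtain ⟨t2, ht2, a2, b2, -⟩ := H.firstB hl2 (by linarith [hs.2]) (by linarith [hs.1]) x
      (by simpa using hsx')
    have u1 := H.uniqC a1 hsx'
    have u2 := H.uniqC hsx' a2
    rw [hγ.dist_le ht1.1 ht1.2 hs.2.le] at u1
    rw [hγ.dist_le hs.1.le (by linarith [ht2.2]) (by linarith [ht2.1])] at u2
    rw [g0] at b1
    rw [sub_zero, g1] at b2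
    linarith

theorem sideP {m x y : X} (h : dist x y = dist m x + dist m y) (h' : dist x y < π) (z : X) :
    sin (dist x y) * cos (dist m z) ≤
      sin (dist m y) * cos (dist x z) + sin (dist m x) * cos (dist y z) := by
  rcases eq_or_lt_of_le (dist_nonneg (x := m) (y := x)) with hx | hx
  · rw [h, ← hx, dist_congr0 hx.symm z]; simp
  rcases eq_or_lt_of_le (dist_nonneg (x := m) (y := y)) with hy | hy
  · rw [h, ← hy, dist_congr0 hy.symm z]; simp
  rcases eq_or_lt_of_le (dist_nonneg (x := m) (y := z)) with hz | hz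
  · rw [dist_comm x z, dist_comm y z, ← dist_congr0 hz.symm x, ← dist_congr0 hz.symm y, ← hz, h,
      sin_add, cos_zero]
    linarith
  have s1 : 0 ≤ sin (dist m x) := sin_nonneg_of_nonneg_of_le_pi dist_nonneg (H.diam _ _)
  have s2 : 0 ≤ sin (dist m y) := sin_nonneg_of_nonneg_of_le_pi dist_nonneg (H.diam _ _)
  have pxyz := H.perim x y z
  have hc := H.diam m z
  by_cases p1 : perimeter m y z < 2 * π
  · by_cases p2 : perimeter m z x < 2 * π
    · exact H.side hx hy hz h h' p1 p2
    · have q := H.perim m z x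
      unfold perimeter at p2
      rw [dist_comm x m, dist_comm z x] at p2
      rw [dist_comm z x] at q
      have e : dist x z = 2 * π - (dist m z + dist m x) := by linarith
      have c : cos (dist m z - dist m y) ≤ cos (dist y z) :=
        cos_anti dist_nonneg (by linarith) (by linarith)
      rw [e, cos_two_pi_sub, cos_add, h, sin_add]
      rw [cos_sub] at c
      nlinarith [mul_le_mul_of_nonneg_left c s1]
  · have q := H.perim m y z
    unfold perimeter at p1
    rw [dist_comm z m] at p1
    have e : dist y z = 2 * π - (dist m z + dist m y) := by linarith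
    have c : cos (dist m z - dist m x) ≤ cos (dist x z) :=
      cos_anti dist_nonneg (by linarith) (by linarith)
    rw [e, cos_two_pi_sub, cos_add, h, sin_add]
    rw [cos_sub] at c
    nlinarith [mul_le_mul_of_nonneg_left c s2]

end GeoAlex

end Pool.Agent.H877Z.Kir
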