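import Pool.Agent.H877Z.Kir.LSS

set_option autoImplicit false

open Set Real Filter Topology
open scoped InnerProductSpace

noncomputable section

namespace Pool.Agent.H877Z.Kir

universe u

/-- weighted vector sum over a list of weighted points -/
def vec {Q H : Type*} [AddCommMonoid H] [Module ℝ H] (l : List (NNReal × Q)) (F : Q → H) : H :=
  (l.map fun a => (a.1 : ℝ) • F a.2).sum

section vec

variable {Q H : Type*} [AddCommMonoid H] [Module ℝ H]

theorem vec_nil (F : Q → H) : vec [] F = 0 := rfl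

theorem vec_cons (a : NNReal × Q) (l : List (NNReal × Q)) (F : Q → H) :
    vec (a :: l) F = (a.1 : ℝ) • F a.2 + vec l F := by simp [vec]

theorem vec_append (l l' : List (NNReal × Q)) (F : Q → H) :
    vec (l ++ l') F = vec l F + vec l' F := by simp [vec]

theorem map_vec {H' : Type*} [AddCommMonoid H'] [Module ℝ H'] (T : H →ₗ[ℝ] H')
    (l : List (NNReal × Q)) (F : Q → H) : T (vec l F) = vec l fun q => T (F q) := by
  induction l with
  | nil => simp [vec_nil]
  | cons a l ih => rw [vec_cons, vec_cons, map_add, map_smul, ih]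

theorem vec_real (l : List (NNReal × Q)) (F : Q → ℝ) : vec l F = lin l F := rfl

end vec

theorem inner_vec {Q H : Type*} [NormedAddCommGroup H] [InnerProductSpace ℝ H]
    (l : List (NNReal × Q)) (F : Q → H) (h : H) : ⟪vec l F, h⟫_ℝ = lin l fun q => ⟪F q, h⟫_ℝ := by
  induction l with
  | nil => simp [vec_nil, lin_nil]
  | cons a l ih => rw [vec_cons, lin_cons, inner_add_left, real_inner_smul_left, ih]

theorem inner_vec' {Q H : Type*} [NormedAddCommGroup H] [InnerProductSpace ℝ H]
    (l : List (NNReal × Q)) (F : Q → H) (h : H) : ⟪h, vec l F⟫_ℝ = lin l fun q => ⟪h, F q⟫_ℝ := by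
  rw [real_inner_comm, inner_vec]; simp only [real_inner_comm]

theorem lin_comm {Q R : Type*} (l : List (NNReal × Q)) (l' : List (NNReal × R)) (F : Q → R → ℝ) :
    (lin l fun a => lin l' fun b => F a b) = lin l' fun b => lin l fun a => F a b := by
  induction l with
  | nil =>
    have := lin_mul l' 0 fun _ => 0
    simpa [lin_nil] using this.symm
  | cons a l ih => simp only [lin_cons]; rw [lin_add, lin_mul, ih]

/-- finitely supported functions, to carry the form given by a kernel -/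
def Pre {Q : Type u} (_k : Q → Q → ℝ) : Type u := Q →₀ ℝ

instance {Q : Type u} (k : Q → Q → ℝ) : AddCommGroup (Pre k) :=
  inferInstanceAs (AddCommGroup (Q →₀ ℝ))

instance {Q : Type u} (k : Q → Q → ℝ) : Module ℝ (Pre k) := inferInstanceAs (Module ℝ (Q →₀ ℝ))

/-- basis vector -/
def Pre.e {Q : Type u} (k : Q → Q → ℝ) (q : Q) : Pre k := Finsupp.single q 1

/-- linear combination -/
def Pre.lc {Q : Type u} (k : Q → Q → ℝ) {M : Type*} [AddCommMonoid M] [Module ℝ M] (c : Q → M) :
    Pre k →ₗ[ℝ] M := Finsupp.linearCombination ℝ c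

theorem Pre.lc_e {Q : Type u} (k : Q → Q → ℝ) {M : Type*} [AddCommMonoid M] [Module ℝ M]
    (c : Q → M) (q : Q) : Pre.lc k c (Pre.e k q) = c q := by
  have := Finsupp.linearCombination_single ℝ (1 : ℝ) q (v := c)
  rw [one_smul] at this
  exact this

theorem Pre.lc_vec {Q : Type u} (k : Q → Q → ℝ) {M : Type*} [AddCommMonoid M] [Module ℝ M]
    (c : Q → M) (l : List (NNReal × Q)) : Pre.lc k c (vec l (Pre.e k)) = vec l c := by
  rw [map_vec]; simp only [Pre.lc_e]

theorem Pre.exists_vec {Q : Type u} (k : Q → Q → ℝ) (v : Pre k) :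
    ∃ l l', v = vec l (Pre.e k) - vec l' (Pre.e k) := by
  refine Finsupp.induction_linear (motive := fun v : Q →₀ ℝ =>
    ∃ l l', (v : Pre k) = vec l (Pre.e k) - vec l' (Pre.e k)) v ⟨[], [], ?_⟩ ?_ ?_
  · rw [sub_self]; rfl
  · rintro a b ⟨l1, l2, ha⟩ ⟨l3, l4, hb⟩
    refine ⟨l1 ++ l3, l2 ++ l4, ?_⟩
    rw [vec_append, vec_append, add_sub_add_comm, ← ha, ← hb]; rfl
  · intro q c
    have e : (Finsupp.single q c : Pre k) = c • Pre.e k q := by
      have := Finsupp.smul_single c q (1 : ℝ)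
      rw [smul_eq_mul, mul_one] at this
      exact this.symm
    rcases le_total 0 c with h | h
    · refine ⟨[(⟨c, h⟩, q)], [], ?_⟩
      rw [vec_cons, vec_nil, add_zero, sub_zero]; exact e
    · refine ⟨[], [(⟨-c, neg_nonneg.2 h⟩, q)], ?_⟩
      rw [vec_cons, vec_nil, add_zero, zero_sub, e]
      change _ = -((-c) • Pre.e k q)
      rw [neg_smul, neg_neg]

/-- the bilinear form -/
def Pre.form {Q : Type u} (k : Q → Q → ℝ) : Pre k →ₗ[ℝ] Pre k →ₗ[ℝ] ℝ :=
  Pre.lc k fun a => Pre.lc k (k a)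

theorem Pre.form_vec {Q : Type u} (k : Q → Q → ℝ) (l l' : List (NNReal × Q)) :
    Pre.form k (vec l (Pre.e k)) (vec l' (Pre.e k)) = lin l fun a => lin l' fun b => k a b := by
  have := map_vec ((Pre.form k).flip (vec l' (Pre.e k))) l (Pre.e k)
  rw [LinearMap.flip_apply] at this
  rw [this, vec_real]
  congr 1
  funext a
  rw [LinearMap.flip_apply, Pre.form, Pre.lc_e, Pre.lc_vec, vec_real]

/-- a positive semidefinite kernel -/
structure PSD {Q : Type u} (k : Q → Q → ℝ) : Prop where
  symm : ∀ a b, k a b = k b a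
  pos : ∀ l l' : List (NNReal × Q), 0 ≤ (lin l fun a => lin l fun b => k a b) -
    2 * (lin l fun a => lin l' fun b => k a b) + lin l' fun a => lin l' fun b => k a b

theorem PSD.lin_symm {Q : Type u} {k : Q → Q → ℝ} (hk : PSD k) (l l' : List (NNReal × Q)) :
    (lin l fun a => lin l' fun b => k a b) = lin l' fun a => lin l fun b => k a b := by
  rw [lin_comm]; simp only [hk.symm _ (_ : Q)]

instance {Q : Type u} (k : Q → Q → ℝ) [hk : Fact (PSD k)] : PreInnerProductSpace.Core ℝ (Pre k) where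
  inner v w := Pre.form k v w
  conj_inner_symm v w := by
    obtain ⟨l1, l2, rfl⟩ := Pre.exists_vec k v
    obtain ⟨l3, l4, rfl⟩ := Pre.exists_vec k w
    simp only [map_sub, LinearMap.sub_apply, Pre.form_vec, conj_trivial]
    rw [hk.out.lin_symm l1 l3, hk.out.lin_symm l1 l4, hk.out.lin_symm l2 l3, hk.out.lin_symm l2 l4]
    ring
  re_inner_nonneg v := by
    obtain ⟨l1, l2, rfl⟩ := Pre.exists_vec k v
    simp only [map_sub, LinearMap.sub_apply, Pre.form_vec, RCLike.re_to_real]
    rw [hk.out.lin_symm l2 l1]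
    linarith [hk.out.pos l1 l2]
  add_left u v w := by simp
  smul_left u v r := by simp

instance {Q : Type u} (k : Q → Q → ℝ) [Fact (PSD k)] : SeminormedAddCommGroup (Pre k) :=
  InnerProductSpace.Core.toSeminormedAddCommGroup (𝕜 := ℝ)

instance {Q : Type u} (k : Q → Q → ℝ) [Fact (PSD k)] : InnerProductSpace ℝ (Pre k) := .ofCore _

theorem PSD.hilbert {Q : Type u} {k : Q → Q → ℝ} (hk : PSD k) :
    ∃ (H : Type u) (_ : NormedAddCommGroup H) (_ : InnerProductSpace ℝ H) (_ : CompleteSpace H)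
      (φ : Q → H), (∀ a b, ⟪φ a, φ b⟫_ℝ = k a b) ∧
      (∀ h : H, ∀ ε > 0, ∃ l l', ‖h - (vec l φ - vec l' φ)‖ < ε) ∧
      ∀ c : Q → ℝ, (∀ l l', |lin l c - lin l' c| ≤ ‖vec l φ - vec l' φ‖) →
        ∃ h : H, ‖h‖ ≤ 1 ∧ ∀ q, ⟪h, φ q⟫_ℝ = c q := by
  have : Fact (PSD k) := ⟨hk⟩
  let T : Pre k →ₗ[ℝ] UniformSpace.Completion (Pre k) :=
    (UniformSpace.Completion.toComplL (𝕜 := ℝ) (E := Pre k)).toLinearMap
  have hT : ∀ v, T v = (v : UniformSpace.Completion (Pre k)) := fun v => rfl
  have hv : ∀ l l', ((vec l (Pre.e k) - vec l' (Pre.e k) : Pre k) :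
      UniformSpace.Completion (Pre k)) =
      vec l (fun q => T (Pre.e k q)) - vec l' (fun q => T (Pre.e k q)) := fun l l' => by
    rw [← hT, map_sub, map_vec, map_vec]
  refine ⟨UniformSpace.Completion (Pre k), inferInstance, inferInstance, inferInstance,
    fun q => T (Pre.e k q), fun a b => ?_, fun h ε hε => ?_, fun c hc => ?_⟩
  · simp only [hT]
    rw [UniformSpace.Completion.inner_coe]
    change Pre.form k _ _ = _
    rw [Pre.form, Pre.lc_e, Pre.lc_e]
  · obtain ⟨v, hv'⟩ := UniformSpace.Completion.denseRange_coe.exists_dist_lt h hε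
    obtain ⟨l, l', rfl⟩ := Pre.exists_vec k v
    exact ⟨l, l', by rw [← hv, ← dist_eq_norm]; exact hv'⟩
  · have hb : ∀ v, ‖Pre.lc k c v‖ ≤ 1 * ‖v‖ := fun v => by
      obtain ⟨l, l', rfl⟩ := Pre.exists_vec k v
      rw [one_mul, ← UniformSpace.Completion.norm_coe (_ - _), hv, map_sub, Pre.lc_vec, Pre.lc_vec]
      exact hc l l'
    let F := ((Pre.lc k c).mkContinuous 1 hb).fromCompletion
    have hF : ∀ v : Pre k, F v = Pre.lc k c v := fun v =>
      ContinuousLinearMap.fromCompletion_apply_coe _ _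
    refine ⟨(InnerProductSpace.toDual ℝ _).symm F, ?_, fun q => ?_⟩
    · rw [LinearIsometryEquiv.norm_map]
      refine F.opNorm_le_bound zero_le_one fun x => ?_
      induction x using UniformSpace.Completion.induction_on with
      | hp => exact isClosed_le (by fun_prop) (by fun_prop)
      | ih v => rw [hF, UniformSpace.Completion.norm_coe]; exact hb v
    · simp only [hT]
      rw [InnerProductSpace.toDual_symm_apply, hF, Pre.lc_e]

end Pool.Agent.H877Z.Kir
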