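import Pool.Agent.H877Z.Kir.Ultra

set_option autoImplicit false

open Set Real Filter Topology

noncomputable section

namespace Pool.Agent.H877Z.Kir

/-- double sum over a list -/
def dsum {V : Type*} (F : V → V → ℝ) (l l' : List V) : ℝ :=
  (l.map fun a => (l'.map fun b => F a b).sum).sum

theorem dsum_nil {V : Type*} (F : V → V → ℝ) (l' : List V) : dsum F [] l' = 0 := rfl

theorem dsum_cons {V : Type*} (F : V → V → ℝ) (a : V) (l l' : List V) :
    dsum F (a :: l) l' = (l'.map fun b => F a b).sum + dsum F l l' := by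
  simp [dsum]

theorem dsum_cons_right {V : Type*} (F : V → V → ℝ) (b : V) (l l' : List V) :
    dsum F l (b :: l') = (l.map fun a => F a b).sum + dsum F l l' := by
  simp [dsum, List.sum_map_add]

theorem dsum_cons_cons {V : Type*} {F : V → V → ℝ} (hF : ∀ a b, F a b = F b a) (a : V)
    (l : List V) :
    dsum F (a :: l) (a :: l) = F a a + 2 * (l.map fun b => F a b).sum + dsum F l l := by
  rw [dsum_cons, dsum_cons_right]
  simp only [List.map_cons, List.sum_cons, hF _ a]
  ring

theorem dsum_mono {V : Type*} {F G : V → V → ℝ} {l l' : List V}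
    (h : ∀ a ∈ l, ∀ b ∈ l', F a b ≤ G a b) : dsum F l l' ≤ dsum G l l' :=
  List.sum_le_sum fun a ha => List.sum_le_sum fun b hb => h a ha b hb

theorem dsum_map {V W : Type*} (F : W → W → ℝ) (f : V → W) (l l' : List V) :
    dsum F (l.map f) (l'.map f) = dsum (fun a b => F (f a) (f b)) l l' := by
  simp [dsum, List.map_map, Function.comp_def]

/-- abstract cone with a sum operation -/
structure Cone (V : Type*) where
  ip : V → V → ℝ
  add : V → V → V
  h : V → ℝ
  P : ℕ → V
  symm : ∀ u v, ip u v = ip v u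
  add_le : ∀ u v z, ip (add u v) z ≤ ip u z + ip v z
  add_l : ∀ u v, ip (add u v) u = ip u u + ip v u
  add_r : ∀ u v, ip (add u v) v = ip u v + ip v v
  add_n : ∀ u v, ip (add u v) (add u v) = ip u u + 2 * ip u v + ip v v
  ip_P : ∀ k z, ip (P k) z = 2 ^ k * h z
  h_P : ∀ k, h (P k) = 2 ^ k
  cs : ∀ u v, -((ip u u - h u * h u) + (ip v v - h v * h v)) / 2 ≤ ip u v - h u * h v

namespace Cone

variable {V : Type*} (C : Cone V)

/-- the tangential part of the product -/
def G (u v : V) : ℝ := C.ip u v - C.h u * C.h v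

theorem G_symm (u v : V) : C.G u v = C.G v u := by
  unfold G; rw [C.symm, mul_comm]

theorem h_add_le (u v : V) : C.h (C.add u v) ≤ C.h u + C.h v := by
  have := C.add_le u v (C.P 0)
  rw [C.symm _ (C.P 0), C.symm _ (C.P 0), C.symm _ (C.P 0), C.ip_P, C.ip_P, C.ip_P] at this
  simpa using this

theorem h_add_P (u : V) (k : ℕ) : C.h (C.add u (C.P k)) = C.h u + 2 ^ k := by
  have := C.add_r u (C.P k)
  rw [C.symm _ (C.P k), C.symm u (C.P k), C.ip_P, C.ip_P, C.ip_P, C.h_P] at this
  have h2 : (0 : ℝ) < 2 ^ k := by positivity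
  exact mul_left_cancel₀ h2.ne' (by rw [this]; ring)

theorem G_add_P (u z : V) (k : ℕ) : C.G (C.add u (C.P k)) z ≤ C.G u z := by
  unfold G
  have := C.add_le u (C.P k) z
  rw [C.ip_P] at this
  rw [C.h_add_P]
  linarith

theorem G_add_P_self (u : V) (k : ℕ) : C.G (C.add u (C.P k)) (C.add u (C.P k)) = C.G u u := by
  unfold G
  rw [C.add_n, C.h_add_P, C.symm u (C.P k), C.ip_P, C.ip_P, C.h_P]
  ring

/-- rays towards the base point -/
def IsRay (γ : ℕ → V) : Prop := ∃ k0, ∀ k ≥ k0, γ (k + 1) = C.add (γ k) (C.P k)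

/-- the ray starting from `u` at level `k` -/
def tower (u : V) (k : ℕ) : ℕ → V
  | 0 => u
  | n + 1 => if n < k then u else C.add (tower u k n) (C.P n)

theorem tower_le (u : V) (k : ℕ) : ∀ n ≤ k, C.tower u k n = u
  | 0, _ => rfl
  | n + 1, h => by rw [tower, if_pos (by omega)]

theorem tower_succ (u : V) (k n : ℕ) (h : k ≤ n) :
    C.tower u k (n + 1) = C.add (C.tower u k n) (C.P n) := by
  rw [tower, if_neg (by omega)]

theorem tower_ray (u : V) (k : ℕ) : C.IsRay (C.tower u k) := ⟨k, fun n h => C.tower_succ u k n h⟩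

/-- the limit product of two rays -/
def I (γ η : ℕ → V) : ℝ := limUnder atTop fun k => C.G (γ k) (η k)

theorem step_le {γ η : ℕ → V} {k : ℕ} (hγ : γ (k + 1) = C.add (γ k) (C.P k))
    (hη : η (k + 1) = C.add (η k) (C.P k)) :
    C.G (γ (k + 1)) (η (k + 1)) ≤ C.G (γ k) (η (k + 1)) ∧
      C.G (γ k) (η (k + 1)) ≤ C.G (γ k) (η k) := by
  constructor
  · rw [hγ]; exact C.G_add_P _ _ _
  · rw [C.G_symm, hη, C.G_symm (γ k)]; exact C.G_add_P _ _ _

theorem self_const {γ : ℕ → V} {k0 : ℕ} (hγ : ∀ k ≥ k0, γ (k + 1) = C.add (γ k) (C.P k)) :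
    ∀ k ≥ k0, C.G (γ k) (γ k) = C.G (γ k0) (γ k0) := by
  intro k hk
  induction k, hk using Nat.le_induction with
  | base => rfl
  | succ k hk ih => rw [hγ k hk, C.G_add_P_self, ih]

theorem I_spec {γ η : ℕ → V} {k0 : ℕ} (hγ : ∀ k ≥ k0, γ (k + 1) = C.add (γ k) (C.P k))
    (hη : ∀ k ≥ k0, η (k + 1) = C.add (η k) (C.P k)) :
    Tendsto (fun k => C.G (γ k) (η k)) atTop (𝓝 (C.I γ η)) ∧ C.I γ η ≤ C.G (γ k0) (η k0) := by
  have anti : Antitone fun n => C.G (γ (n + k0)) (η (n + k0)) := by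
    refine antitone_nat_of_succ_le fun n => ?_
    have := C.step_le (hγ (n + k0) (by omega)) (hη (n + k0) (by omega))
    rw [show n + 1 + k0 = n + k0 + 1 by omega]
    exact this.1.trans this.2
  have bdd : BddBelow (range fun n => C.G (γ (n + k0)) (η (n + k0))) := by
    refine ⟨-(C.G (γ k0) (γ k0) + C.G (η k0) (η k0)) / 2, ?_⟩
    rintro _ ⟨n, rfl⟩
    rw [← C.self_const hγ (n + k0) (by omega), ← C.self_const hη (n + k0) (by omega)]
    exact C.cs _ _
  have t := tendsto_atTop_ciInf anti bdd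
  have t' := (tendsto_add_atTop_iff_nat (f := fun k => C.G (γ k) (η k)) k0).1 t
  have t'' : Tendsto (fun k => C.G (γ k) (η k)) atTop (𝓝 (C.I γ η)) :=
    tendsto_nhds_limUnder ⟨_, t'⟩
  refine ⟨t'', ?_⟩
  rw [tendsto_nhds_unique t'' t']
  simpa using ciInf_le bdd 0

theorem I_tendsto {γ η : ℕ → V} (hγ : C.IsRay γ) (hη : C.IsRay η) :
    Tendsto (fun k => C.G (γ k) (η k)) atTop (𝓝 (C.I γ η)) := by
  obtain ⟨a, ha⟩ := hγ
  obtain ⟨b, hb⟩ := hη
  exact (C.I_spec (k0 := max a b) (fun k hk => ha k ((le_max_left _ _).trans hk))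
    (fun k hk => hb k ((le_max_right _ _).trans hk))).1

theorem I_symm (γ η : ℕ → V) : C.I γ η = C.I η γ := by
  unfold I; simp only [C.G_symm (γ _)]

theorem height {γ : ℕ → V} (hγ : C.IsRay γ) :
    Tendsto (fun k => C.h (γ (k + 1)) / 2 ^ k) atTop (𝓝 2) := by
  obtain ⟨k0, h⟩ := hγ
  have e : ∀ k ≥ k0, C.h (γ k) = C.h (γ k0) - 2 ^ k0 + 2 ^ k := by
    intro k hk
    induction k, hk using Nat.le_induction with
    | base => ring
    | succ k hk ih => rw [h k hk, C.h_add_P, ih]; ring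
  have t : Tendsto (fun k : ℕ => (C.h (γ k0) - 2 ^ k0) * (1 / 2 : ℝ) ^ k + 2) atTop (𝓝 2) := by
    have := (tendsto_pow_atTop_nhds_zero_of_lt_one (r := (1 / 2 : ℝ)) (by norm_num)
      (by norm_num)).const_mul (C.h (γ k0) - 2 ^ k0)
    simpa using this.add_const 2
  refine t.congr' ?_
  filter_upwards [eventually_ge_atTop k0] with k hk
  rw [e (k + 1) (by omega), one_div, inv_pow]
  field_simp
  ring

theorem combine {γ η : ℕ → V} (hγ : C.IsRay γ) (hη : C.IsRay η) (l : List (ℕ → V))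
    (hl : ∀ ζ ∈ l, C.IsRay ζ) {ε : ℝ} (hε : 0 < ε) :
    ∃ θ, C.IsRay θ ∧ C.I θ θ ≤ C.I γ γ + 2 * C.I γ η + C.I η η + ε ∧
      ∀ ζ ∈ l, C.I θ ζ ≤ C.I γ ζ + C.I η ζ + ε := by
  let m : ℕ → V := fun k => C.add (γ (k + 1)) (η (k + 1))
  let e : ℕ → ℝ := fun k => C.h (γ (k + 1)) + C.h (η (k + 1)) - C.h (m k)
  have e0 : ∀ k, 0 ≤ e k := fun k => by
    have := C.h_add_le (γ (k + 1)) (η (k + 1))
    simp only [e, m]; linarith
  have sh : ∀ {a b : ℕ → V}, C.IsRay a → C.IsRay b →
      Tendsto (fun k => C.G (a (k + 1)) (b (k + 1))) atTop (𝓝 (C.I a b)) := fun {a b} ha hb =>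
    (tendsto_add_atTop_iff_nat (f := fun k => C.G (a k) (b k)) 1).2 (C.I_tendsto ha hb)
  have e1 : Tendsto (fun k => 2 ^ k * e k) atTop (𝓝 0) := by
    have t := (C.I_tendsto hγ hη).sub (sh hγ hη)
    rw [sub_self] at t
    obtain ⟨a, ha⟩ := hγ
    obtain ⟨b, hb⟩ := hη
    refine squeeze_zero' (Eventually.of_forall fun k => mul_nonneg (by positivity) (e0 k)) ?_ t
    filter_upwards [eventually_ge_atTop a, eventually_ge_atTop b] with k ka kb
    have s := (C.step_le (ha k ka) (hb k kb)).2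
    have q1 : C.ip (m k) (γ (k + 1)) = C.ip (γ (k + 1)) (γ (k + 1)) + C.ip (η (k + 1)) (γ (k + 1)) :=
      C.add_l _ _
    have q2 : C.ip (γ (k + 1)) (m k) ≤ C.ip (γ k) (m k) + 2 ^ k * C.h (m k) := by
      rw [ha k ka, ← C.ip_P]; exact C.add_le _ _ _
    have q3 : C.ip (m k) (γ k) ≤ C.ip (γ (k + 1)) (γ k) + C.ip (η (k + 1)) (γ k) := C.add_le _ _ _
    have q4 : C.ip (γ (k + 1)) (γ (k + 1)) = C.ip (γ (k + 1)) (γ k) + 2 ^ k * C.h (γ (k + 1)) := by
      rw [ha k ka, C.add_n, C.add_l, C.h_add_P, C.symm (γ k) (C.P k), C.ip_P, C.ip_P, C.h_P]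
      ring
    have q5 : C.h (γ (k + 1)) = C.h (γ k) + 2 ^ k := by rw [ha k ka, C.h_add_P]
    rw [C.symm (γ (k + 1)) (m k), C.symm (γ k) (m k)] at q2
    rw [C.symm (η (k + 1))] at q1 q3
    simp only [e]
    unfold G at s ⊢
    rw [q5] at q4 ⊢
    nlinarith
  have e2 : ∀ {ζ : ℕ → V}, C.IsRay ζ → Tendsto (fun k => e k * C.h (ζ (k + 1))) atTop (𝓝 0) := by
    intro ζ hζ
    have := e1.mul (C.height hζ)
    rw [zero_mul] at this
    refine this.congr fun k => ?_
    field_simp
  have t1 : ∀ᶠ k in atTop, C.G (m k) (m k) ≤ C.I γ γ + 2 * C.I γ η + C.I η η + ε := by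
    have := (((sh hγ hγ).add ((sh hγ hη).const_mul 2)).add (sh hη hη)).add
      (((e2 hγ).add (e2 hη)).const_mul 2)
    filter_upwards [this.eventually (gt_mem_nhds (show _ < C.I γ γ + 2 * C.I γ η + C.I η η + ε by
      linarith))] with k hk
    refine le_trans ?_ hk.le
    have q : C.ip (m k) (m k) = _ := C.add_n (γ (k + 1)) (η (k + 1))
    have q' : C.h (m k) = C.h (γ (k + 1)) + C.h (η (k + 1)) - e k := by simp only [e]; ring
    unfold G
    rw [q, q']
    nlinarith [sq_nonneg (e k)]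
  have t2 : ∀ᶠ k in atTop, ∀ ζ ∈ {ζ | ζ ∈ l}, (∀ j ≥ k, ζ (j + 1) = C.add (ζ j) (C.P j)) ∧
      C.G (m k) (ζ (k + 1)) ≤ C.I γ ζ + C.I η ζ + ε := by
    rw [eventually_all_finite l.finite_toSet]
    intro ζ hζ
    have hr := hl ζ hζ
    have := ((sh hγ hr).add (sh hη hr)).add (e2 hr)
    obtain ⟨a, ha⟩ := hr
    filter_upwards [eventually_ge_atTop a, this.eventually
      (gt_mem_nhds (show _ < C.I γ ζ + C.I η ζ + ε by linarith))] with k ka hk
    refine ⟨fun j hj => ha j (ka.trans hj), le_trans ?_ hk.le⟩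
    have q : C.ip (m k) (ζ (k + 1)) ≤ _ := C.add_le (γ (k + 1)) (η (k + 1)) _
    have q' : C.h (m k) = C.h (γ (k + 1)) + C.h (η (k + 1)) - e k := by simp only [e]; ring
    unfold G
    rw [q']
    nlinarith
  obtain ⟨k, k1, k2⟩ := (t1.and t2).exists
  have ts := fun n (hn : n ≥ k + 1) => C.tower_succ (m k) (k + 1) n hn
  refine ⟨C.tower (m k) (k + 1), C.tower_ray _ _, ?_, fun ζ hζ => ?_⟩
  · have := (C.I_spec ts ts).2
    rw [C.tower_le _ _ _ le_rfl] at this
    exact this.trans k1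
  · have := (C.I_spec ts (fun j hj => (k2 ζ hζ).1 j (by omega))).2
    rw [C.tower_le _ _ _ le_rfl] at this
    exact this.trans (k2 ζ hζ).2

theorem G_self_nonneg (u : V) : 0 ≤ C.G u u := by
  have := C.cs u u
  unfold G; linarith

theorem lss_rays : ∀ (n : ℕ) (l : List (ℕ → V)), l.length = n → (∀ ζ ∈ l, C.IsRay ζ) →
    0 ≤ dsum C.I l l
  | 0, l, h, _ => by rw [List.length_eq_zero_iff.1 h]; exact le_rfl
  | 1, l, h, hl => by
    obtain ⟨γ, rfl⟩ := List.length_eq_one_iff.1 h
    have hγ := hl γ (by simp)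
    have : 0 ≤ C.I γ γ := ge_of_tendsto' (C.I_tendsto hγ hγ) fun k => C.G_self_nonneg _
    simpa [dsum] using this
  | n + 2, l, h, hl => by
    obtain ⟨γ, η, r, rfl⟩ : ∃ γ η r, l = γ :: η :: r := by
      match l, h with
      | γ :: η :: r, _ => exact ⟨γ, η, r, rfl⟩
    have hr : ∀ ζ ∈ r, C.IsRay ζ := fun ζ hζ => hl ζ (by simp [hζ])
    refine le_of_forall_pos_le_add fun δ hδ => ?_
    have hp : (0 : ℝ) < 1 + 2 * r.length := by positivity
    obtain ⟨θ, hθ, a1, a2⟩ := C.combine (hl γ (by simp)) (hl η (by simp)) r hr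
      (ε := δ / (1 + 2 * r.length)) (by positivity)
    have ih := lss_rays (n + 1) (θ :: r) (by simpa using h) (by
      intro ζ hζ
      rcases List.mem_cons.1 hζ with rfl | hζ
      · exact hθ
      · exact hr ζ hζ)
    rw [dsum_cons_cons C.I_symm] at ih
    rw [dsum_cons_cons C.I_symm, dsum_cons_cons C.I_symm]
    have b : (r.map fun ζ => C.I θ ζ).sum ≤ (r.map fun ζ => C.I γ ζ).sum +
        (r.map fun ζ => C.I η ζ).sum + r.length * (δ / (1 + 2 * r.length)) := by
      refine (List.sum_le_sum a2).trans (le_of_eq ?_)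
      simp [List.sum_map_add]
    have c : δ / (1 + 2 * r.length) + 2 * (r.length * (δ / (1 + 2 * r.length))) = δ := by
      field_simp
    simp only [List.map_cons, List.sum_cons]
    linarith

theorem lss (l : List V) : 0 ≤ dsum C.G l l := by
  have := C.lss_rays _ (l.map fun u => C.tower u 0) rfl (by
    intro ζ hζ
    obtain ⟨u, -, rfl⟩ := List.mem_map.1 hζ
    exact C.tower_ray u 0)
  rw [dsum_map] at this
  refine this.trans (dsum_mono fun a _ b _ => ?_)
  exact (C.I_spec (k0 := 0) (fun n hn => C.tower_succ a 0 n hn)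
    (fun n hn => C.tower_succ b 0 n hn)).2

end Cone

/-- weighted sum over a list of weighted points -/
def lin {Q : Type*} (l : List (NNReal × Q)) (F : Q → ℝ) : ℝ := (l.map fun a => (a.1 : ℝ) * F a.2).sum

theorem lin_nil {Q : Type*} (F : Q → ℝ) : lin [] F = 0 := rfl

theorem lin_cons {Q : Type*} (a : NNReal × Q) (l : List (NNReal × Q)) (F : Q → ℝ) :
    lin (a :: l) F = a.1 * F a.2 + lin l F := by simp [lin]

theorem lin_append {Q : Type*} (l l' : List (NNReal × Q)) (F : Q → ℝ) :
    lin (l ++ l') F = lin l F + lin l' F := by simp [lin]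

theorem lin_add {Q : Type*} (l : List (NNReal × Q)) (F G : Q → ℝ) :
    lin l (fun q => F q + G q) = lin l F + lin l G := by
  simp [lin, mul_add, List.sum_map_add]

theorem lin_mul {Q : Type*} (l : List (NNReal × Q)) (c : ℝ) (F : Q → ℝ) :
    lin l (fun q => c * F q) = c * lin l F := by
  induction l with
  | nil => simp [lin_nil]
  | cons a l ih => rw [lin_cons, lin_cons, ih]; ring

theorem lin_sub {Q : Type*} (l : List (NNReal × Q)) (F G : Q → ℝ) :
    lin l (fun q => F q - G q) = lin l F - lin l G := by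
  induction l with
  | nil => simp [lin_nil]
  | cons a l ih => rw [lin_cons, lin_cons, lin_cons, ih]; ring

theorem lin_mono {Q : Type*} (l : List (NNReal × Q)) {F G : Q → ℝ} (h : ∀ q, F q ≤ G q) :
    lin l F ≤ lin l G :=
  List.sum_le_sum fun a _ => mul_le_mul_of_nonneg_left (h _) a.1.2

theorem lin_map {Q R : Type*} (l : List (NNReal × Q)) (f : Q → R) (F : R → ℝ) :
    lin (l.map fun a => (a.1, f a.2)) F = lin l (fun q => F (f q)) := by
  simp [lin, List.map_map, Function.comp_def]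

/-- scaling the weights -/
def scal {Q : Type*} (c : NNReal) (l : List (NNReal × Q)) : List (NNReal × Q) :=
  l.map fun a => (c * a.1, a.2)

theorem lin_scal {Q : Type*} (c : NNReal) (l : List (NNReal × Q)) (F : Q → ℝ) :
    lin (scal c l) F = c * lin l F := by
  induction l with
  | nil => simp [lin_nil, scal]
  | cons a l ih =>
    have : scal c (a :: l) = (c * a.1, a.2) :: scal c l := rfl
    rw [this, lin_cons, lin_cons, ih]; push_cast; ring

theorem dsum_eq_lin {Q : Type*} (k : Q → Q → ℝ) (l l' : List (NNReal × Q)) :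
    dsum (fun a b : NNReal × Q => (a.1 : ℝ) * b.1 * k a.2 b.2) l l' =
      lin l fun a => lin l' fun b => k a b := by
  induction l with
  | nil => rfl
  | cons a l ih =>
    rw [dsum_cons, lin_cons, ih, ← lin_mul]
    congr 1
    unfold lin
    congr 2
    funext b
    ring

theorem GeoAlex.lss {X : Type*} [PseudoMetricSpace X] (H : GeoAlex X) (x : X)
    (l : List (NNReal × X)) :
    (lin l fun q => cos (dist x q)) ^ 2 ≤ lin l fun a => lin l fun b => cos (dist a b) := by
  have hs := fun u v : NNReal × X => H.sum u.2 v.2 u.1.2 v.1.2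
  choose m R R0 R1 R2 R3 R4 using hs
  let C : Cone (NNReal × X) :=
    { ip := fun u v => (u.1 : ℝ) * v.1 * cos (dist u.2 v.2)
      add := fun u v => (⟨R u v, R0 u v⟩, m u v)
      h := fun u => u.1 * cos (dist x u.2)
      P := fun k => (2 ^ k, x)
      symm := fun u v => by rw [dist_comm, mul_comm (u.1 : ℝ)]
      add_le := fun u v z => by
        have := mul_le_mul_of_nonneg_left (R4 u v z.2) z.1.2
        change R u v * z.1 * cos (dist (m u v) z.2) ≤ _
        change (z.1 : ℝ) * _ ≤ (z.1 : ℝ) * ((u.1 : ℝ) * _ + (v.1 : ℝ) * _) at this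
        linarith
      add_l := fun u v => by
        have := R2 u v
        change R u v * u.1 * cos (dist (m u v) u.2) = _
        change _ = (u.1 : ℝ) + (v.1 : ℝ) * _ at this
        rw [dist_self, cos_zero, dist_comm v.2]
        linear_combination (u.1 : ℝ) * this
      add_r := fun u v => by
        have := R3 u v
        change R u v * v.1 * cos (dist (m u v) v.2) = _
        change _ = (u.1 : ℝ) * _ + (v.1 : ℝ) at this
        rw [dist_self, cos_zero]
        linear_combination (v.1 : ℝ) * this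
      add_n := fun u v => by
        have := R1 u v
        change R u v * R u v * cos (dist (m u v) (m u v)) = _
        change _ = (u.1 : ℝ) ^ 2 + 2 * (u.1 : ℝ) * (v.1 : ℝ) * _ + (v.1 : ℝ) ^ 2 at this
        rw [dist_self, dist_self, dist_self, cos_zero]
        linear_combination this
      ip_P := fun k z => by push_cast; ring
      h_P := fun k => by simp
      cs := fun u v => by
        have g := gram_lower (a := dist x u.2) (b := dist x v.2) (c := dist u.2 v.2) dist_nonneg
          (H.diam _ _) dist_nonneg dist_nonneg (H.diam _ _) (H.diam _ _)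
          (dist_triangle_left _ _ _) (H.perim _ _ _)
        have g' := mul_le_mul_of_nonneg_left g (mul_nonneg u.1.2 v.1.2)
        change (u.1 : ℝ) * (v.1 : ℝ) * _ ≤ (u.1 : ℝ) * (v.1 : ℝ) * _ at g'
        rw [dist_self, dist_self, cos_zero]
        have a := sin_sq_add_cos_sq (dist x u.2)
        have b := sin_sq_add_cos_sq (dist x v.2)
        have c := sq_nonneg ((u.1 : ℝ) * sin (dist x u.2) - v.1 * sin (dist x v.2))
        have a' : (u.1 : ℝ) * u.1 * 1 - u.1 * cos (dist x u.2) * (u.1 * cos (dist x u.2)) =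
            ((u.1 : ℝ) * sin (dist x u.2)) ^ 2 := by linear_combination (-(u.1 : ℝ) ^ 2) * a
        have b' : (v.1 : ℝ) * v.1 * 1 - v.1 * cos (dist x v.2) * (v.1 * cos (dist x v.2)) =
            ((v.1 : ℝ) * sin (dist x v.2)) ^ 2 := by linear_combination (-(v.1 : ℝ) ^ 2) * b
        rw [a', b']
        nlinarith }
  have k := C.lss l
  have e : C.G = fun a b : NNReal × X => (a.1 : ℝ) * b.1 *
      (cos (dist a.2 b.2) - cos (dist x a.2) * cos (dist x b.2)) := by
    funext a b
    change (a.1 : ℝ) * b.1 * cos (dist a.2 b.2) - a.1 * cos (dist x a.2) * (b.1 * cos (dist x b.2)) = _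
    ring
  rw [e, dsum_eq_lin (fun a b => cos (dist a b) - cos (dist x a) * cos (dist x b))] at k
  simp only [lin_sub, lin_mul] at k
  have e2 : (lin l fun a => cos (dist x a) * lin l fun b => cos (dist x b)) =
      (lin l fun q => cos (dist x q)) ^ 2 := by
    simp only [mul_comm (cos (dist x _))]
    rw [lin_mul, sq]
  linarith

/-- the Lang-Schroeder-Sturm inequality -/
theorem IsAlex1.lss {L : Type*} [MetricSpace L] (hL : IsAlex1 L) (x : L) (l : List (NNReal × L)) :
    (lin l fun q => cos (dist x q)) ^ 2 ≤ lin l fun a => lin l fun b => cos (dist a b) := by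
  have : Fact (∀ x y : L, dist x y ≤ π) := ⟨hL.2.2.1⟩
  have k := (geoAlex_up hL).lss (cst x) (l.map fun a => (a.1, cst a.2))
  simpa only [lin_map, dist_cst] using k

end Pool.Agent.H877Z.Kir
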