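import Pool.Agent.H877Z.Kir.Max

set_option autoImplicit false

open Set Real Filter Topology
open scoped InnerProductSpace

noncomputable section

namespace Pool.Agent.H877Z.Kir

universe u

variable {L U : Type*} [MetricSpace L] [MetricSpace U] {Q : Set L} {f : Q → U}
  {H : Type*} [NormedAddCommGroup H] [InnerProductSpace ℝ H]

/-- the Hilbert space model of `Q` together with the projection of `L` -/
structure Model (Q : Set L) (φ : Q → H) (P : L → H) : Prop where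
  inn : ∀ a b : Q, ⟪φ a, φ b⟫_ℝ = cos (dist (a : L) b)
  dense : ∀ h : H, ∀ ε > 0, ∃ l, ‖h - vec l φ‖ < ε
  nrm : ∀ z, ‖P z‖ ≤ 1
  prj : ∀ z (q : Q), ⟪P z, φ q⟫_ℝ = cos (dist z q)

theorem inner_vec_vec {φ : Q → H} (hφ : ∀ a b : Q, ⟪φ a, φ b⟫_ℝ = cos (dist (a : L) b))
    (l l' : List (NNReal × Q)) :
    ⟪vec l φ, vec l' φ⟫_ℝ = lin l fun a : Q => lin l' fun b : Q => cos (dist (a : L) b) := by
  rw [inner_vec]; simp only [inner_vec', hφ]

theorem exists_model {L : Type u} [MetricSpace L] {Q : Set L} {f : Q → U} (hL : IsAlex1 L)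
    (hU : IsCAT1 U) [Nonempty U] (hM : IsMaximalShort Q f) {x : L} (hx : x ∉ Q) :
    ∃ (H : Type u) (_ : NormedAddCommGroup H) (_ : InnerProductSpace ℝ H) (_ : CompleteSpace H)
      (φ : Q → H) (P : L → H), Model Q φ P := by
  obtain ⟨H, i1, i2, i3, φ, h1, h2, h3⟩ := (psd hL hU hM hx).hilbert
  have sm : ∀ l0 : List (NNReal × Q), ∀ ε > 0, ∃ l, ‖vec l0 φ + vec l φ‖ ≤ ε := fun l0 ε hε => by
    obtain ⟨l, k, -⟩ := small hL hU hM hx l0 hε
    rw [← inner_vec_vec h1, real_inner_self_eq_norm_sq, vec_append] at k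
    exact ⟨l, (abs_le_of_sq_le_sq' k hε.le).2⟩
  have bd : ∀ (z : L) (l : List (NNReal × Q)), |lin l fun q : Q => cos (dist z q)| ≤ ‖vec l φ‖ :=
    fun z l => by
      have := lssQ hL z l
      rw [← inner_vec_vec h1, real_inner_self_eq_norm_sq] at this
      exact abs_le_of_sq_le_sq this (norm_nonneg _)
  have hP : ∀ z : L, ∃ h : H, ‖h‖ ≤ 1 ∧ ∀ q : Q, ⟪h, φ q⟫_ℝ = cos (dist z q) := fun z =>
    h3 _ fun l l' => le_of_forall_pos_le_add fun ε hε => by
      obtain ⟨m, hm⟩ := sm l' (ε / 2) (by positivity)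
      have a := abs_le.1 (bd z (l ++ m))
      have b := abs_le.1 (bd z (l' ++ m))
      rw [lin_append, vec_append] at a b
      have c := norm_add_le (vec l φ - vec l' φ) (vec l' φ + vec m φ)
      rw [show vec l φ - vec l' φ + (vec l' φ + vec m φ) = vec l φ + vec m φ by abel] at c
      rw [abs_le]
      constructor <;> linarith [a.1, a.2, b.1, b.2]
  choose P P1 P2 using hP
  refine ⟨H, i1, i2, i3, φ, P, h1, fun h ε hε => ?_, P1, P2⟩
  obtain ⟨l, l', k⟩ := h2 h (ε / 2) (by positivity)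
  obtain ⟨m, hm⟩ := sm l' (ε / 2) (by positivity)
  refine ⟨l ++ m, ?_⟩
  have c := norm_sub_le (h - (vec l φ - vec l' φ)) (vec l' φ + vec m φ)
  rw [show h - (vec l φ - vec l' φ) - (vec l' φ + vec m φ) = h - (vec l φ + vec m φ) by abel] at c
  rw [vec_append]
  linarith

namespace Model

variable {φ : Q → H} {P : L → H}

theorem closed (M : Model Q φ P) {S : Set H} (hS : IsClosed S) (h : ∀ l, vec l φ ∈ S) (v : H) :
    v ∈ S := by
  rw [← hS.closure_eq, Metric.mem_closure_iff]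
  intro ε hε
  obtain ⟨l, hl⟩ := M.dense v ε hε
  exact ⟨_, h l, by rwa [dist_eq_norm]⟩

theorem uniq (M : Model Q φ P) {h h' : H} (e : ∀ q, ⟪h, φ q⟫_ℝ = ⟪h', φ q⟫_ℝ) : h = h' := by
  refine ext_inner_right ℝ fun v => ?_
  refine M.closed (S := {v | ⟪h, v⟫_ℝ = ⟪h', v⟫_ℝ}) (isClosed_eq (by fun_prop) (by fun_prop))
    (fun l => ?_) v
  simp only [mem_ofPred_eq, inner_vec', e]

theorem P_coe (M : Model Q φ P) (q : Q) : P q = φ q := M.uniq fun a => by rw [M.prj, M.inn]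

theorem norm_φ (M : Model Q φ P) (q : Q) : ‖φ q‖ = 1 := by
  have := M.inn q q
  rw [real_inner_self_eq_norm_sq, dist_self, cos_zero] at this
  exact (pow_eq_one_iff_of_nonneg (norm_nonneg _) two_ne_zero).1 this

theorem lss (M : Model Q φ P) (hL : IsAlex1 L) (x : L) (β : List (NNReal × L)) (h : H) :
    ((lin β fun z => cos (dist x z)) + ⟪P x, h⟫_ℝ) ^ 2 ≤
      (lin β fun a => lin β fun b => cos (dist a b)) + 2 * ⟪vec β P, h⟫_ℝ + ⟪h, h⟫_ℝ := by
  refine M.closed (S := {h | ((lin β fun z => cos (dist x z)) + ⟪P x, h⟫_ℝ) ^ 2 ≤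
      (lin β fun a => lin β fun b => cos (dist a b)) + 2 * ⟪vec β P, h⟫_ℝ + ⟪h, h⟫_ℝ})
    (isClosed_le (by fun_prop) (by fun_prop)) (fun l => ?_) h
  have k := hL.lss x (β ++ l.map fun a => (a.1, (a.2 : L)))
  simp only [lin_append, lin_add, lin_map] at k
  rw [mem_ofPred_eq, inner_vec_vec M.inn, inner_vec', inner_vec]
  simp only [inner_vec', M.prj]
  rw [lin_comm l β] at k
  have e : (lin β fun b => lin l fun a : Q => cos (dist (a : L) b)) =
      lin β fun b => lin l fun a : Q => cos (dist b a) := by simp only [dist_comm]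
  linarith

theorem mem (M : Model Q φ P) (hL : IsAlex1 L) (hU : IsCAT1 U) [Nonempty U]
    (hM : IsMaximalShort Q f) {z : L} (hz : ‖P z‖ = 1) : z ∈ Q := by
  by_contra hx
  obtain ⟨y, y1, y2⟩ := exists_y hL hU hM.1 z
  have y0 := y.1.coe_nonneg
  have k := M.closed (S := {h | ⟪P z, h⟫_ℝ ≤ y.1 * ‖h‖}) (isClosed_le (by fun_prop) (by fun_prop))
    (fun l => by
      obtain ⟨g, g1, g2⟩ := rep_norm hL hU hM hx l
      rw [← inner_vec_vec M.inn, real_inner_self_eq_norm_sq] at g2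
      have g3 := (abs_le_of_sq_le_sq' g2 (norm_nonneg _)).2
      have a := lin_mono l y2
      rw [lin_mul] at a
      have b := g1 y.2
      simp only [cs_comm _ y.2] at b
      have c := mul_le_mul_of_nonneg_left (cs_le y.2 g.2) g.1.coe_nonneg
      rw [mem_ofPred_eq, inner_vec']
      simp only [M.prj]
      exact a.trans (mul_le_mul_of_nonneg_left (by linarith) y0)) (P z)
  rw [mem_ofPred_eq, real_inner_self_eq_norm_sq, hz] at k
  have e : (y.1 : ℝ) = 1 := by linarith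
  exact ext_false hL hM hx (y := y.2) fun q => by simpa only [e, one_mul] using y2 q

theorem approx (M : Model Q φ P) (hL : IsAlex1 L) (x : L) {h : H} (hh : ‖h‖ = 1) (δ : ℝ)
    (hδ : 0 < δ) : ∃ m, 1 - δ ≤ ⟪P m, h⟫_ℝ := by
  obtain ⟨η, e0, e1, e2⟩ : ∃ η : ℝ, 0 < η ∧ η ≤ 1 / 10 ∧ 9 * η ≤ δ :=
    ⟨min (1 / 10) (δ / 9), lt_min (by norm_num) (by positivity), min_le_left _ _,
      by linarith [min_le_right (1 / 10) (δ / 9)]⟩
  obtain ⟨l, hl⟩ := M.dense h η e0
  obtain ⟨l', hl'⟩ := M.dense (-h) η e0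
  have n0 : 0 ≤ lin l' fun _ => 1 := lin_nonneg l' fun _ => zero_le_one
  set n := lin l' fun _ => 1 with hn
  obtain ⟨m, r, r0, r1, r2⟩ := lsum hL x l (η / (n + 1)) (by positivity)
  have d2 : η / (n + 1) * (n + 1) = η := div_mul_cancel₀ _ (by positivity)
  have d0 : 0 < η / (n + 1) := by positivity
  set ε := η / (n + 1)
  refine ⟨m, ?_⟩
  rw [← inner_vec_vec M.inn, real_inner_self_eq_norm_sq] at r1
  have a : r * ⟪P m, vec l' φ⟫_ℝ ≤ ⟪vec l φ, vec l' φ⟫_ℝ + ε * n := by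
    rw [inner_vec', ← lin_mul, inner_vec_vec M.inn, lin_comm, hn, ← lin_mul, ← lin_add]
    exact lin_mono l' fun q => by rw [M.prj, mul_one]; exact r2 q
  obtain ⟨u, hu⟩ : ∃ u, u = h - vec l φ := ⟨_, rfl⟩
  obtain ⟨v, hv⟩ : ∃ v, v = -h - vec l' φ := ⟨_, rfl⟩
  have eu : vec l φ = h - u := by rw [hu]; abel
  have ev : vec l' φ = -h - v := by rw [hv]; abel
  rw [← hu] at hl
  rw [← hv] at hl'
  rw [eu] at r1 a
  rw [ev] at a
  simp only [inner_sub_left, inner_sub_right, inner_neg_right, real_inner_self_eq_norm_sq, hh] at a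
  have b1 := real_inner_le_norm (P m) v
  have b2 := (abs_le.1 (abs_real_inner_le_norm h v)).1
  have b3 := real_inner_le_norm u h
  have b4 := real_inner_le_norm u v
  have b5 := norm_sub_le h u
  rw [hh] at b2 b3 b5
  have b6 : ‖u‖ * ‖v‖ ≤ η * η := mul_le_mul hl.le hl'.le (norm_nonneg _) e0.le
  have b7 : ‖P m‖ * ‖v‖ ≤ 1 * η := mul_le_mul (M.nrm m) hl'.le (norm_nonneg _) zero_le_one
  have b8 : ‖h - u‖ ^ 2 ≤ (1 + η) ^ 2 := pow_le_pow_left₀ (norm_nonneg _) (by linarith) 2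
  have c1 : r ≤ 1 + 2 * η := (abs_le_of_sq_le_sq' (by nlinarith [mul_nonneg d0.le n0])
    (by linarith)).2
  have c2 : r * ⟪P m, v⟫_ℝ ≤ r * η := mul_le_mul_of_nonneg_left (by linarith) r0
  have c3 : 1 - 6 * η ≤ r * ⟪P m, h⟫_ℝ := by nlinarith
  have c4 : 0 ≤ ⟪P m, h⟫_ℝ := by
    by_contra hc
    nlinarith [mul_nonneg r0 (neg_nonneg.2 (not_le.1 hc).le)]
  have c5 : ⟪P m, h⟫_ℝ ≤ 1 := by
    have := real_inner_le_norm (P m) h
    rw [hh] at this
    linarith [M.nrm m]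
  nlinarith [mul_le_mul_of_nonneg_right c1 c4]

theorem lim (M : Model Q φ P) {m : ℕ → L} {p : L} (hm : Tendsto m atTop (𝓝 p)) {h : H}
    (hh : Tendsto (fun n => P (m n)) atTop (𝓝 h)) : P p = h := M.uniq fun q => by
  have a : Tendsto (fun n => ⟪P (m n), φ q⟫_ℝ) atTop (𝓝 ⟪h, φ q⟫_ℝ) :=
    hh.inner tendsto_const_nhds
  simp only [M.prj] at a ⊢
  exact tendsto_nhds_unique ((continuous_cos.tendsto _).comp (hm.dist tendsto_const_nhds)) a

theorem surj (M : Model Q φ P) (hL : IsAlex1 L) (hU : IsCAT1 U) [Nonempty U]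
    (hM : IsMaximalShort Q f) (x : L) {h : H} (hh : ‖h‖ = 1) : ∃ q, φ q = h := by
  obtain ⟨m, p, m1, m2⟩ := lim_of_approx hL (fun δ m => 1 - δ ≤ ⟪P m, h⟫_ℝ) (M.approx hL x hh)
    two_pos (fun δ δ' a b ha hb => by
      have k := (sq_nonneg _).trans (M.lss hL x [(1, a), (1, b)] ((-2 : ℝ) • h))
      simp only [lin_cons, lin_nil, vec_cons, vec_nil, NNReal.coe_one, one_mul, one_smul, add_zero,
        dist_self, cos_zero, inner_add_left, real_inner_smul_left, real_inner_smul_right,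
        real_inner_self_eq_norm_sq, dist_comm b a, norm_smul, hh, norm_neg, Real.norm_two] at k
      linarith)
  have e : P p = h := M.lim m2 (by
    rw [tendsto_iff_norm_sub_tendsto_zero]
    have t := ((tendsto_one_div_add_atTop_nhds_zero_nat (𝕜 := ℝ)).const_mul 2).sqrt
    rw [mul_zero, sqrt_zero] at t
    refine squeeze_zero (fun _ => norm_nonneg _) (fun n => le_sqrt_of_sq_le ?_) t
    rw [norm_sub_sq_real, hh]
    nlinarith [m1 n, M.nrm (m n), norm_nonneg (P (m n))])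
  exact ⟨⟨p, M.mem hL hU hM (by rw [e, hh])⟩, by rw [← M.P_coe, e]⟩

theorem pole (M : Model Q φ P) (hL : IsAlex1 L) (hU : IsCAT1 U) [Nonempty U]
    (hM : IsMaximalShort Q f) {x : L} (hx : x ∉ Q) : ∃ p, P p = 0 := by
  have h1 : ‖P x‖ < 1 := lt_of_le_of_ne (M.nrm x) fun e => hx (M.mem hL hU hM e)
  rcases eq_or_ne (P x) 0 with h0 | h0
  · exact ⟨x, h0⟩
  have e0 : 0 < ‖P x‖ := norm_pos_iff.2 h0
  obtain ⟨q, hq⟩ := M.surj hL hU hM x (h := -(‖P x‖⁻¹ • P x))
    (by rw [norm_neg, norm_smul, norm_inv, norm_norm, inv_mul_cancel₀ e0.ne'])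
  have hq' : ‖P x‖ • φ q = -P x := by
    rw [hq, smul_neg, smul_smul, mul_inv_cancel₀ e0.ne', one_smul]
  set η := ‖P x‖ with hη
  have R2 := sq_sqrt (show 0 ≤ 1 - η ^ 2 by nlinarith)
  have R0 : 0 < √(1 - η ^ 2) := sqrt_pos.2 (by nlinarith)
  set R := √(1 - η ^ 2)
  have cq : η * cos (dist x q) = -η ^ 2 := by
    rw [← M.prj, ← real_inner_smul_right, hq', inner_neg_right, real_inner_self_eq_norm_sq]
  obtain ⟨m, p, m1, m2⟩ := lim_of_approx hL (fun δ m => cos (dist x m) = R ∧ ‖P m‖ ≤ δ)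
    (fun δ hδ => by
      obtain ⟨m, r, r0, r1, r2, r3⟩ := hL.sum x q zero_le_one e0.le (mul_pos R0 hδ)
      obtain rfl : r = R := (pow_left_inj₀ r0 R0.le two_ne_zero).1 (by linarith)
      refine ⟨m, mul_left_cancel₀ R0.ne' (by linarith), ?_⟩
      rcases eq_or_ne (P m) 0 with z | z
      · rw [z, norm_zero]; exact hδ.le
      have z0 : 0 < ‖P m‖ := norm_pos_iff.2 z
      obtain ⟨q', hq2⟩ := M.surj hL hU hM x (h := ‖P m‖⁻¹ • P m)
        (by rw [norm_smul, norm_inv, norm_norm, inv_mul_cancel₀ z0.ne'])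
      have k := r3 q'
      rw [← M.prj, ← M.prj, ← M.inn, ← real_inner_smul_left (φ q), hq', inner_neg_left, hq2,
        real_inner_smul_right, real_inner_self_eq_norm_sq, sq, ← mul_assoc ‖P m‖⁻¹,
        inv_mul_cancel₀ z0.ne'] at k
      exact le_of_mul_le_mul_left (by linarith) R0)
    (C := 2 / R) (by positivity) (fun δ δ' a b ha hb => by
      have k := M.lss hL x [(R.toNNReal, a), (R.toNNReal, b)] ((2 : ℝ) • P x)
      simp only [lin_cons, lin_nil, vec_cons, vec_nil, Real.coe_toNNReal _ R0.le, add_zero,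
        dist_self, cos_zero, inner_add_left, real_inner_smul_left, real_inner_smul_right,
        real_inner_self_eq_norm_sq, dist_comm b a, ha.1, hb.1, norm_smul, Real.norm_two, ← hη] at k
      have b1 := real_inner_le_norm (P a) (P x)
      have b2 := real_inner_le_norm (P b) (P x)
      have b3 : ‖P a‖ * η ≤ δ * 1 := mul_le_mul ha.2 h1.le e0.le ((norm_nonneg _).trans ha.2)
      have b4 : ‖P b‖ * η ≤ δ' * 1 := mul_le_mul hb.2 h1.le e0.le ((norm_nonneg _).trans hb.2)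
      have b5 : R * (⟪P a, P x⟫_ℝ + ⟪P b, P x⟫_ℝ) ≤ R * (δ + δ') :=
        mul_le_mul_of_nonneg_left (by linarith) R0.le
      have b6 : (R * R + R * R + 2 * η ^ 2) ^ 2 = 4 := by
        rw [show R * R + R * R + 2 * η ^ 2 = 2 by linarith]; norm_num
      have b7 : R * (R * (1 - cos (dist a b))) ≤ R * (2 * (δ + δ')) := by nlinarith
      have b8 := le_of_mul_le_mul_left b7 R0
      have b9 : 1 - cos (dist a b) ≤ 2 * (δ + δ') / R := by
        rw [le_div_iff₀ R0]; linarith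
      rw [div_mul_eq_mul_div]
      linarith)
  exact ⟨p, M.lim m2 (squeeze_zero_norm (fun n => (m1 n).2)
    tendsto_one_div_add_atTop_nhds_zero_nat)⟩

end Model

theorem main {L : Type u} [MetricSpace L] {Q : Set L} {f : Q → U} (hL : IsAlex1 L)
    (hU : IsCAT1 U) (hQ : Q ≠ univ) (hM : IsMaximalShort Q f) :
    ((∃ (H : Type u) (_ : NormedAddCommGroup H) (_ : InnerProductSpace ℝ H) (_ : CompleteSpace H)
        (φ : Q → H), range φ = Metric.sphere 0 1 ∧
          ∀ a b : Q, dist a b = arccos ⟪φ a, φ b⟫_ℝ) ∧ ∃ p : L, ∀ q ∈ Q, dist p q = π / 2) ∧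
      (∀ a b : Q, dist (f a) (f b) = dist a b) ∧ ¬ ∃ w : U, ∀ q : Q, dist w (f q) = π / 2 := by
  obtain ⟨x, hx⟩ := (ne_univ_iff_exists_notMem Q).1 hQ
  refine ⟨?_, dist_eq hL hU hM hx, ?_⟩
  · rcases isEmpty_or_nonempty U with e | e
    · have : IsEmpty Q := ⟨fun q => e.elim (f q)⟩
      refine ⟨⟨EuclideanSpace ℝ PEmpty.{u + 1}, inferInstance, inferInstance, inferInstance,
        fun _ => 0, ?_, fun a => this.elim a⟩, x, fun q hq => this.elim ⟨q, hq⟩⟩
      rw [range_eq_empty]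
      ext v
      simp [Subsingleton.elim v 0]
    obtain ⟨H, i1, i2, i3, φ, P, M⟩ := exists_model hL hU hM hx
    refine ⟨⟨H, i1, i2, i3, φ, ?_, fun a b => ?_⟩, ?_⟩
    · ext v
      rw [mem_sphere_zero_iff_norm]
      exact ⟨by rintro ⟨q, rfl⟩; exact M.norm_φ q, fun hv => M.surj hL hU hM x hv⟩
    · rw [M.inn, arccos_cos dist_nonneg (hL.2.2.1 _ _)]; rfl
    · obtain ⟨p, hp⟩ := M.pole hL hU hM hx
      refine ⟨p, fun q hq => ?_⟩
      have := M.prj p ⟨q, hq⟩
      rw [hp, inner_zero_left, ← cos_pi_div_two] at this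
      exact injOn_cos ⟨dist_nonneg, hL.2.2.1 _ _⟩ ⟨by positivity, by linarith [pi_pos]⟩ this.symm
  · rintro ⟨w, hw⟩
    obtain ⟨q, hq⟩ := no_pole hL hU hM hx w
    rw [cs_eq (by rw [hw]; linarith [pi_pos]), hw, cos_pi_div_two] at hq
    exact lt_irrefl _ hq

end Pool.Agent.H877Z.Kir
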