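import Pool.Agent.H877Z.Kir.Cat
import Pool.Agent.H877Z.Kir.Hilb

set_option autoImplicit false

open Set Real Filter Topology
open scoped InnerProductSpace

noncomputable section

namespace Pool.Agent.H877Z.Kir

variable {L U : Type*} [MetricSpace L] [MetricSpace U] {Q : Set L} {f : Q → U}

theorem le_of_cos_le {a b : ℝ} (ha : a ≤ π) (hb : 0 ≤ b) (h : cos b ≤ cos a) :
    a ≤ b := by
  by_contra hc
  have := cos_lt_cos_of_nonneg_of_le_pi hb ha (not_le.1 hc)
  linarith

theorem ext_aux (hM : IsMaximalShort Q f) {x : L} (hx : x ∉ Q) {y : U}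
    (hy : ∀ q : Q, dist y (f q) ≤ dist x q) : False := by
  classical
  refine hM.2 ⟨insert x Q, ssubset_insert hx,
    fun z => if h : z.1 ∈ Q then f ⟨z.1, h⟩ else y, ?_, fun q => by simp⟩
  rintro ⟨a, ha⟩ ⟨b, hb⟩
  by_cases h1 : a ∈ Q <;> by_cases h2 : b ∈ Q
  · simp only [h1, h2, dif_pos]; exact hM.1 ⟨a, h1⟩ ⟨b, h2⟩
  · obtain rfl : b = x := (mem_insert_iff.1 hb).resolve_right h2
    simp only [h1, h2, dif_pos, dif_neg, not_false_eq_true]
    rw [dist_comm, dist_comm (⟨a, ha⟩ : ↥(insert b Q))]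
    exact hy ⟨a, h1⟩
  · obtain rfl : a = x := (mem_insert_iff.1 ha).resolve_right h1
    simp only [h1, h2, dif_pos, dif_neg, not_false_eq_true]
    exact hy ⟨b, h2⟩
  · simp only [h1, h2, dif_neg, not_false_eq_true, dist_self]; exact dist_nonneg

theorem ext_false (hL : IsAlex1 L) (hM : IsMaximalShort Q f) {x : L} (hx : x ∉ Q) {y : U}
    (hy : ∀ q : Q, cos (dist x q) ≤ cs y (f q)) : False := by
  have k : ∀ q : Q, dist x q < π → dist y (f q) ≤ dist x q := fun q hq => by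
    have := le_of_cos_le (min_le_left π (dist y (f q))) dist_nonneg (hy q)
    rcases min_le_iff.1 this with h | h
    · linarith
    · exact h
  by_cases h : ∃ q' : Q, dist x q' < π
  · obtain ⟨q', hq'⟩ := h
    refine ext_aux hM hx (y := y) fun q => ?_
    rcases eq_or_lt_of_le (hL.2.2.1 x q) with e | e
    · have a := hL.perim x q' q
      have b := hM.1 q' q
      have c := dist_triangle y (f q') (f q)
      have d := k q' hq'
      rw [Subtype.dist_eq] at b
      linarith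
    · exact k q e
  · push Not at h
    rcases isEmpty_or_nonempty Q with e | ⟨⟨q0⟩⟩
    · exact ext_aux hM hx (y := y) fun q => e.elim q
    · exact ext_aux hM hx (y := f q0) fun q => (hM.1 q0 q).trans ((hL.2.2.1 q0 q).trans (h q))

theorem cos_le_cs (hL : IsAlex1 L) (hf : IsShort f) (a b : Q) :
    cos (dist (a : L) b) ≤ cs (f a) (f b) :=
  cos_anti (min_nonneg' _ _) ((min_le_right _ _).trans (hf a b)) (hL.2.2.1 a b)

theorem lssQ (hL : IsAlex1 L) (x : L) (l : List (NNReal × Q)) :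
    (lin l fun q => cos (dist x q)) ^ 2 ≤ lin l fun a => lin l fun b => cos (dist (a : L) b) := by
  simpa only [lin_map] using hL.lss x (l.map fun a => (a.1, (a.2 : L)))

theorem exists_y (hL : IsAlex1 L) (hU : IsCAT1 U) [Nonempty U] (hf : IsShort f) (x : L) :
    ∃ y : NNReal × U, (y.1 : ℝ) ≤ 1 ∧ ∀ q : Q, cos (dist x q) ≤ y.1 * cs y.2 (f q) :=
  hU.exists_short f _ fun l => (lssQ hL x l).trans
    (lin_mono l fun a => lin_mono l fun b => cos_le_cs hL hf a b)

theorem no_pole (hL : IsAlex1 L) (hU : IsCAT1 U) (hM : IsMaximalShort Q f) {x : L} (hx : x ∉ Q)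
    (w : U) : ∃ q, cs w (f q) < 0 := by
  by_contra hc
  push Not at hc
  have : Nonempty U := ⟨w⟩
  obtain ⟨y, y1, y2⟩ := exists_y hL hU hM.1 x
  set c : ℝ := y.1 * cs y.2 w with hcd
  have y0 := y.1.coe_nonneg
  have h1 : 0 ≤ 1 - (y.1 : ℝ) ^ 2 := by nlinarith
  have h2 := sq_sqrt (show 0 ≤ c ^ 2 + (1 - (y.1 : ℝ) ^ 2) by positivity)
  have h3 : c ≤ √(c ^ 2 + (1 - (y.1 : ℝ) ^ 2)) := le_sqrt_of_sq_le (by linarith)
  obtain ⟨m, m1, m2⟩ := hU.add y (Real.toNNReal (√(c ^ 2 + (1 - (y.1 : ℝ) ^ 2)) - c), w)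
  simp only [Real.coe_toNNReal _ (sub_nonneg.2 h3)] at m1 m2
  have m3 : (m.1 : ℝ) = 1 := by
    have : (m.1 : ℝ) ^ 2 = 1 ^ 2 := by
      rw [m1]
      linear_combination h2 - 2 * (√(c ^ 2 + (1 - (y.1 : ℝ) ^ 2)) - c) * hcd
    exact (pow_left_inj₀ m.1.coe_nonneg zero_le_one two_ne_zero).1 this
  refine ext_false hL hM hx (y := m.2) fun q => ?_
  have := m2 (f q)
  rw [m3, one_mul] at this
  nlinarith [y2 q, mul_nonneg (sub_nonneg.2 h3) (hc q)]

theorem lin_nonneg {R : Type*} (l : List (NNReal × R)) {F : R → ℝ} (h : ∀ q, 0 ≤ F q) :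
    0 ≤ lin l F := by
  have := lin_mono l h
  have e := lin_mul l 0 fun _ => 0
  simp only [zero_mul] at e
  linarith

theorem cs_eq_cos (hL : IsAlex1 L) (hU : IsCAT1 U) (hM : IsMaximalShort Q f) {x : L} (hx : x ∉ Q)
    (a b : Q) : cs (f a) (f b) = cos (dist (a : L) b) := by
  have : Nonempty U := ⟨f a⟩
  refine le_antisymm (le_of_forall_pos_le_add fun ε hε => ?_) (cos_le_cs hL hM.1 a b)
  obtain ⟨l, g, h1, h2⟩ := hU.exists_small f (no_pole hL hU hM hx) [(1, a), (1, b)]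
    (sqrt_pos.2 hε)
  have k1 := h1.two h1
  rw [cs_self, mul_one] at k1
  have k2 : (g.1 : ℝ) * g.1 ≤ ε := by
    have := mul_le_mul h2 h2 g.1.coe_nonneg (sqrt_nonneg _)
    rwa [mul_self_sqrt hε.le] at this
  have k3 := (sq_nonneg _).trans (lssQ hL x ([(1, a), (1, b)] ++ l))
  have D : ∀ u v : Q, 0 ≤ cs (f u) (f v) - cos (dist (u : L) v) := fun u v =>
    sub_nonneg.2 (cos_le_cs hL hM.1 u v)
  have k4 : cs (f a) (f b) - cos (dist (a : L) b) ≤ lin ([(1, a), (1, b)] ++ l) fun u =>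
      lin ([(1, a), (1, b)] ++ l) fun v => cs (f u) (f v) - cos (dist (u : L) v) := by
    rw [List.cons_append, lin_cons]
    have e1 := lin_nonneg ([(1, b)] ++ l) fun u => lin_nonneg ((1, a) :: ([(1, b)] ++ l)) (D u)
    have e2 := lin_nonneg l (D a)
    have e3 := D a a
    rw [lin_cons, List.cons_append, lin_cons, List.nil_append]
    rw [List.cons_append, List.nil_append] at e1
    simp only [NNReal.coe_one, one_mul]
    linarith
  simp only [lin_sub] at k4
  linarith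

theorem dist_eq (hL : IsAlex1 L) (hU : IsCAT1 U) (hM : IsMaximalShort Q f) {x : L} (hx : x ∉ Q)
    (a b : Q) : dist (f a) (f b) = dist a b := by
  have h1 : dist (f a) (f b) ≤ π := (hM.1 a b).trans (hL.2.2.1 a b)
  have := cs_eq_cos hL hU hM hx a b
  rw [cs_eq h1] at this
  exact injOn_cos ⟨dist_nonneg, h1⟩ ⟨dist_nonneg, hL.2.2.1 a b⟩ this

theorem small (hL : IsAlex1 L) (hU : IsCAT1 U) [Nonempty U] (hM : IsMaximalShort Q f) {x : L}
    (hx : x ∉ Q) (l0 : List (NNReal × Q)) {ε : ℝ} (hε : 0 < ε) :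
    ∃ l, (lin (l0 ++ l) fun a : Q => lin (l0 ++ l) fun b : Q => cos (dist (a : L) b)) ≤ ε ^ 2 ∧
      (∀ z : L, |lin (l0 ++ l) fun b : Q => cos (dist z b)| ≤ ε) ∧
      ∀ u : U, (lin (l0 ++ l) fun b => cs (f b) u) ≤ ε := by
  obtain ⟨l, g, h1, h2⟩ := hU.exists_small f (no_pole hL hU hM hx) l0 hε
  have k1 := h1.two h1
  simp only [cs_eq_cos hL hU hM hx] at k1
  rw [cs_self, mul_one] at k1
  have k2 := k1.trans (mul_le_mul h2 h2 g.1.coe_nonneg hε.le)
  rw [← sq] at k2
  refine ⟨l, k2, fun z => abs_le_of_sq_le_sq ((lssQ hL z _).trans k2) hε.le, fun u => ?_⟩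
  nlinarith [h1 u, mul_le_mul_of_nonneg_left (cs_le g.2 u) g.1.coe_nonneg]

theorem psd (hL : IsAlex1 L) (hU : IsCAT1 U) [Nonempty U] (hM : IsMaximalShort Q f) {x : L}
    (hx : x ∉ Q) : PSD fun a b : Q => cos (dist (a : L) b) where
  symm a b := by rw [dist_comm]
  pos l l' := by
    refine le_of_forall_pos_le_add fun ε hε => ?_
    have n0 : 0 ≤ lin l' fun _ => 1 := lin_nonneg l' fun _ => zero_le_one
    have n1 : 0 ≤ lin l fun _ => 1 := lin_nonneg l fun _ => zero_le_one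
    set n := lin l' fun _ => 1 with hn
    set n' := lin l fun _ => 1 with hn'
    obtain ⟨δ, d0, d1, d2⟩ : ∃ δ : ℝ, 0 < δ ∧ δ ≤ 1 ∧ δ * (2 * n + 2 * n' + 1) ≤ ε :=
      ⟨min 1 (ε / (2 * n + 2 * n' + 1)), lt_min one_pos (by positivity), min_le_left _ _,
        (le_div_iff₀ (by positivity)).1 (min_le_right _ _)⟩
    obtain ⟨m, m1, m2, -⟩ := small hL hU hM hx l' d0
    have k := (sq_nonneg _).trans (lssQ hL x (l ++ m))
    have a1 : (lin l fun a : Q => lin (l' ++ m) fun b : Q => cos (dist (a : L) b)) ≤ δ * n' := by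
      rw [hn', ← lin_mul]
      exact lin_mono l fun a => by rw [mul_one]; exact (abs_le.1 (m2 a)).2
    have a2 : -δ * n ≤ (lin l' fun a : Q => lin (l' ++ m) fun b : Q => cos (dist (a : L) b)) := by
      rw [hn, ← lin_mul]
      exact lin_mono l' fun a => by rw [mul_one]; exact (abs_le.1 (m2 a)).1
    have s : ∀ u v : List (NNReal × Q), (lin u fun a => lin v fun b => cos (dist (a : L) b)) =
        lin v fun a => lin u fun b => cos (dist (a : L) b) := fun u v => by
      rw [lin_comm]; simp only [dist_comm]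
    simp only [lin_append, lin_add] at k a1 a2 m1
    rw [s m l] at k
    rw [s m l'] at m1
    nlinarith

theorem rep_norm (hL : IsAlex1 L) (hU : IsCAT1 U) [Nonempty U] (hM : IsMaximalShort Q f) {x : L}
    (hx : x ∉ Q) (l : List (NNReal × Q)) :
    ∃ g, Rep f l g ∧ (g.1 : ℝ) ^ 2 ≤ lin l fun a => lin l fun b => cos (dist (a : L) b) := by
  induction l with
  | nil => exact ⟨(0, Classical.arbitrary U), fun u => by simp [lin_nil], by simp [lin_nil]⟩
  | cons a l ih =>
    obtain ⟨g, g1, g2⟩ := ih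
    obtain ⟨m, m1, m2⟩ := hU.add g (a.1, f a.2)
    refine ⟨m, fun u => by rw [lin_cons]; linarith [g1 u, m2 u], ?_⟩
    have key : g.1 * cs g.2 (f a.2) ≤ lin l fun b => cos (dist (b : L) a.2) := by
      refine le_of_forall_pos_le_add fun ε hε => ?_
      have n1 : 0 ≤ lin l fun _ => 1 := lin_nonneg l fun _ => zero_le_one
      set n := lin l fun _ => 1 with hn
      have g0 := g.1.coe_nonneg
      obtain ⟨μ, -, m2, m3⟩ := small hL hU hM hx [(1, a.2)]
        (show 0 < ε / (g.1 + n + 1) by positivity)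
      have d2 : ε / (g.1 + n + 1) * (g.1 + n + 1) = ε := div_mul_cancel₀ _ (by positivity)
      have d0 : 0 < ε / (g.1 + n + 1) := by positivity
      set δ := ε / (g.1 + n + 1)
      have a2 : -δ * n ≤
          (lin l fun c : Q => lin ([(1, a.2)] ++ μ) fun b : Q => cos (dist (c : L) b)) := by
        rw [hn, ← lin_mul]
        exact lin_mono l fun a => by rw [mul_one]; exact (abs_le.1 (m2 a)).1
      have a3 := mul_le_mul_of_nonneg_left (m3 g.2) g0
      have a4 : (lin μ fun b => lin l fun c => cos (dist (c : L) b)) ≤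
          lin μ fun b => g.1 * cs (f b) g.2 := lin_mono μ fun b => by
        have := g1 (f b)
        simp only [cs_eq_cos hL hU hM hx] at this
        rwa [cs_comm (f b)]
      rw [lin_mul, lin_comm] at a4
      simp only [List.cons_append, List.nil_append, lin_cons, NNReal.coe_one, one_mul,
        lin_add] at a2 a3
      rw [cs_comm (f a.2)] at a3
      nlinarith
    simp only [lin_cons, lin_add, lin_mul, dist_self, cos_zero]
    simp only [dist_comm (a.2 : L)]
    nlinarith [mul_le_mul_of_nonneg_left key a.1.coe_nonneg]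

theorem lsum (hL : IsAlex1 L) (x : L) (l : List (NNReal × Q)) : ∀ ε > 0, ∃ (m : L) (r : ℝ),
    0 ≤ r ∧ r ^ 2 ≤ (lin l fun a => lin l fun b => cos (dist (a : L) b)) + ε ∧
      ∀ z, r * cos (dist m z) ≤ (lin l fun a => cos (dist (a : L) z)) + ε := by
  induction l with
  | nil => exact fun ε hε => ⟨x, 0, le_rfl, by simp [lin_nil, hε.le], by simp [lin_nil, hε.le]⟩
  | cons a l ih =>
    intro ε hε
    have a0 := a.1.coe_nonneg
    obtain ⟨m, r, r0, r1, r2⟩ := ih (ε / (2 * a.1 + 2)) (by positivity)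
    have d2 : ε / (2 * a.1 + 2) * (2 * a.1 + 2) = ε := div_mul_cancel₀ _ (by positivity)
    have d0 : 0 < ε / (2 * a.1 + 2) := by positivity
    set δ := ε / (2 * a.1 + 2)
    obtain ⟨m', R, R0, R1, -, R2⟩ := hL.sum (a.2 : L) m a0 r0 d0
    refine ⟨m', R, R0, ?_, fun z => ?_⟩
    · simp only [lin_cons, lin_add, lin_mul, dist_self, cos_zero]
      simp only [dist_comm (a.2 : L)] at R1 ⊢
      nlinarith [mul_le_mul_of_nonneg_left (r2 a.2) a0]
    · rw [lin_cons]
      nlinarith [r2 z, R2 z, mul_nonneg d0.le a0]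

theorem lim_of_approx (hL : IsAlex1 L) (P : ℝ → L → Prop) (hP : ∀ δ > 0, ∃ m, P δ m) {C : ℝ}
    (hC : 0 < C) (hc : ∀ δ δ' m m', P δ m → P δ' m' → 1 - C * (δ + δ') ≤ cos (dist m m')) :
    ∃ (m : ℕ → L) (p : L), (∀ n : ℕ, P (1 / ((n : ℝ) + 1)) (m n)) ∧ Tendsto m atTop (𝓝 p) := by
  have := hL.1
  choose m hm using fun n : ℕ => hP (1 / ((n : ℝ) + 1)) (by positivity)
  have hcau : CauchySeq m := cauchy_of_cs fun ε hε => by
    obtain ⟨N, hN⟩ := eventually_atTop.1 ((tendsto_one_div_add_atTop_nhds_zero_nat (𝕜 := ℝ)).eventually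
      (gt_mem_nhds (show 0 < ε / (2 * C) by positivity)))
    refine ⟨N, fun n hn k hk => ?_⟩
    rw [cs_eq (hL.2.2.1 _ _)]
    have a := hc _ _ _ _ (hm n) (hm k)
    have b := (lt_div_iff₀ (by positivity)).1 (hN n hn)
    have c := (lt_div_iff₀ (by positivity)).1 (hN k hk)
    linarith
  obtain ⟨p, hp⟩ := cauchySeq_tendsto_of_complete hcau
  exact ⟨m, p, hm, hp⟩

end Pool.Agent.H877Z.Kir
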