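import Pool.Agent.H877Z.Kir.Defs

set_option autoImplicit false

open Set Real

noncomputable section

namespace Pool.Agent.H877Z.Kir

/-- polar form of `s + t e^{i d}` -/
theorem polar {d s t : ℝ} (hd0 : 0 < d) (hd : d < π) (hs : 0 ≤ s) (ht : 0 ≤ t) :
    ∃ α β R : ℝ, 0 ≤ α ∧ 0 ≤ β ∧ α + β = d ∧ 0 ≤ R ∧ R * sin β = s * sin d ∧
      R * sin α = t * sin d ∧ R * cos α = s + t * cos d ∧ R * cos β = s * cos d + t ∧
      R ^ 2 = s ^ 2 + 2 * s * t * cos d + t ^ 2 := by
  have hsd : 0 < sin d := sin_pos_of_pos_of_lt_pi hd0 hd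
  have hc : ContinuousOn (fun α : ℝ => s * sin α - t * sin (d - α)) (Icc 0 d) := by fun_prop
  have hmem : (0 : ℝ) ∈ Icc ((fun α : ℝ => s * sin α - t * sin (d - α)) 0)
      ((fun α : ℝ => s * sin α - t * sin (d - α)) d) := by
    constructor
    · simp only [sin_zero, mul_zero, sub_zero, zero_sub]
      nlinarith [mul_nonneg ht hsd.le]
    · simp only [sub_self, sin_zero, mul_zero, sub_zero]
      exact mul_nonneg hs hsd.le
  obtain ⟨α, hα, h0⟩ := intermediate_value_Icc hd0.le hc hmem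
  obtain ⟨β, rfl⟩ : ∃ β, d = α + β := ⟨d - α, by ring⟩
  have hβ : 0 ≤ β := by linarith [hα.2]
  simp only [add_sub_cancel_left] at h0
  have e : s * sin α = t * sin β := by linarith
  have a2 := sin_sq_add_cos_sq α
  have b2 := sin_sq_add_cos_sq β
  have h1 : (s * cos α + t * cos β) * sin β = s * sin (α + β) := by
    rw [sin_add]; linear_combination (-cos β) * e
  have h2 : (s * cos α + t * cos β) * sin α = t * sin (α + β) := by
    rw [sin_add]; linear_combination (cos α) * e
  refine ⟨α, β, s * cos α + t * cos β, hα.1, hβ, rfl, ?_, h1, h2, ?_, ?_, ?_⟩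
  · by_contra hneg
    push Not at hneg
    have sa : 0 ≤ sin α := sin_nonneg_of_nonneg_of_le_pi hα.1 (by linarith)
    have sb : 0 ≤ sin β := sin_nonneg_of_nonneg_of_le_pi hβ (by linarith [hα.1])
    have hs0 : s = 0 := by
      have : s * sin (α + β) ≤ 0 := by rw [← h1]; exact mul_nonpos_of_nonpos_of_nonneg hneg.le sb
      nlinarith
    have ht0 : t = 0 := by
      have : t * sin (α + β) ≤ 0 := by rw [← h2]; exact mul_nonpos_of_nonpos_of_nonneg hneg.le sa
      nlinarith
    rw [hs0, ht0] at hneg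
    simp at hneg
  · rw [cos_add]; linear_combination s * a2 - sin α * e
  · rw [cos_add]; linear_combination t * b2 + sin β * e
  · rw [cos_add]
    linear_combination s ^ 2 * a2 + t ^ 2 * b2 - (s * sin α - t * sin β) * e

theorem cos_anti {a b : ℝ} (ha : 0 ≤ a) (hab : a ≤ b) (hb : b ≤ π) : cos b ≤ cos a :=
  cos_le_cos_of_nonneg_of_le_pi ha hb hab

theorem gram_lower {a b c : ℝ} (hc : 0 ≤ c) (hcp : c ≤ π) (ha : 0 ≤ a) (hb : 0 ≤ b)
    (hap : a ≤ π) (hbp : b ≤ π) (h1 : c ≤ a + b) (h2 : a + b + c ≤ 2 * π) :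
    cos a * cos b - sin a * sin b ≤ cos c := by
  rw [← cos_add]
  rcases le_total (a + b) π with h | h
  · exact cos_anti hc h1 h
  · rw [← cos_two_pi_sub (a + b)]
    exact cos_anti hc (by linarith) (by linarith)

theorem gram_upper {a b c : ℝ} (hcp : c ≤ π) (h1 : a ≤ b + c) (h2 : b ≤ a + c) :
    cos c ≤ cos a * cos b + sin a * sin b := by
  rw [← cos_sub, ← cos_abs (a - b)]
  exact cos_anti (abs_nonneg _) (abs_le.2 ⟨by linarith, by linarith⟩) hcp

theorem cos_modelAngle {a b c : ℝ} (ha : 0 < a) (hb : 0 < b) (hc : 0 ≤ c) (h1 : c ≤ a + b)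
    (h2 : a ≤ b + c) (h3 : b ≤ a + c) (h4 : a + b + c < 2 * π) :
    cos (modelAngle a b c) * (sin a * sin b) = cos c - cos a * cos b := by
  have sa : 0 < sin a := sin_pos_of_pos_of_lt_pi ha (by linarith)
  have sb : 0 < sin b := sin_pos_of_pos_of_lt_pi hb (by linarith)
  have hp := mul_pos sa sb
  have l := gram_lower hc (by linarith) ha.le hb.le (by linarith) (by linarith) h1 h4.le
  have u := gram_upper (c := c) (by linarith) h2 h3
  unfold modelAngle
  rw [cos_arccos, div_mul_cancel₀ _ hp.ne']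
  · rw [le_div_iff₀ hp]; linarith
  · rw [div_le_iff₀ hp]; linarith

theorem modelAngle_straight {a b : ℝ} (ha : 0 < a) (hb : 0 < b) (h : a + b < π) :
    modelAngle a b (a + b) = π := by
  have sa : 0 < sin a := sin_pos_of_pos_of_lt_pi ha (by linarith)
  have sb : 0 < sin b := sin_pos_of_pos_of_lt_pi hb (by linarith)
  unfold modelAngle
  rw [cos_add, show (cos a * cos b - sin a * sin b - cos a * cos b) / (sin a * sin b) = -1 by
    field_simp; ring, arccos_neg_one]

theorem modelAngle_nonneg (a b c : ℝ) : 0 ≤ modelAngle a b c := arccos_nonneg _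

theorem modelAngle_le (a b c : ℝ) : modelAngle a b c ≤ π := arccos_le_pi _

/-- maximum principle for `u'' + u ≥ 0` in the midpoint sense -/
theorem max_principle {u : ℝ → ℝ} {l : ℝ} (hl0 : 0 ≤ l) (hl : l < π) (hc : ContinuousOn u (Icc 0 l))
    (h0 : u 0 ≤ 0) (h1 : u l ≤ 0)
    (hm : ∀ t ∈ Ioo 0 l, ∃ η > 0, ∀ h, 0 < h → h < η → 2 * cos h * u t ≤ u (t - h) + u (t + h)) :
    ∀ t ∈ Icc 0 l, u t ≤ 0 := by
  set e := (π - l) / 2 with he
  have he0 : 0 < e := by rw [he]; linarith
  have hw : ∀ t ∈ Icc 0 l, 0 < sin (t + e) := fun t ht =>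
    sin_pos_of_pos_of_lt_pi (by linarith [ht.1]) (by rw [he]; linarith [ht.2])
  have hcq : ContinuousOn (fun t => u t / sin (t + e)) (Icc 0 l) :=
    hc.div (by fun_prop) fun t ht => (hw t ht).ne'
  obtain ⟨t1, ht1, hmax⟩ := isCompact_Icc.exists_isMaxOn (nonempty_Icc.2 hl0) hcq
  set M := u t1 / sin (t1 + e) with hM
  have hle : ∀ t ∈ Icc 0 l, u t ≤ M * sin (t + e) := fun t ht => by
    have : u t / sin (t + e) ≤ M := hmax ht
    rwa [div_le_iff₀ (hw t ht)] at this
  by_cases hMp : M ≤ 0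
  · intro t ht
    exact (hle t ht).trans (mul_nonpos_of_nonpos_of_nonneg hMp (hw t ht).le)
  push Not at hMp
  exfalso
  set S := {t ∈ Icc 0 l | u t - M * sin (t + e) = 0} with hS
  have hSc : IsClosed S := by
    have : ContinuousOn (fun t => u t - M * sin (t + e)) (Icc 0 l) := hc.sub (by fun_prop)
    exact this.preimage_isClosed_of_isClosed isClosed_Icc (isClosed_singleton (x := (0 : ℝ)))
  have hSn : S.Nonempty := ⟨t1, ht1, by rw [hM, div_mul_cancel₀ _ (hw t1 ht1).ne', sub_self]⟩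
  have hSb : BddBelow S := ⟨0, fun t ht => ht.1.1⟩
  have hs := hSc.csInf_mem hSn hSb
  set s := sInf S with hsdef
  have hs1 : u s = M * sin (s + e) := by linarith [hs.2]
  have hpos : 0 < u s := by rw [hs1]; exact mul_pos hMp (hw s hs.1)
  have s0 : 0 < s := lt_of_le_of_ne hs.1.1 (fun h => by rw [← h] at hpos; linarith)
  have sl : s < l := lt_of_le_of_ne hs.1.2 (fun h => by rw [h] at hpos; linarith)
  obtain ⟨η, hη, hh⟩ := hm s ⟨s0, sl⟩
  set h := min (η / 2) (min (s / 2) ((l - s) / 2)) with hhdef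
  have hpos' : 0 < h := lt_min (by linarith) (lt_min (by linarith) (by linarith))
  have h_1 : h ≤ η / 2 := min_le_left _ _
  have h_2 : h ≤ s / 2 := (min_le_right _ _).trans (min_le_left _ _)
  have h_3 : h ≤ (l - s) / 2 := (min_le_right _ _).trans (min_le_right _ _)
  have m1 : s - h ∈ Icc 0 l := ⟨by linarith, by linarith⟩
  have m2 : s + h ∈ Icc 0 l := ⟨by linarith, by linarith⟩
  have k1 : u (s - h) < M * sin (s - h + e) := by
    refine lt_of_le_of_ne (hle _ m1) fun heq => ?_
    have : s ≤ s - h := csInf_le hSb ⟨m1, by rw [heq, sub_self]⟩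
    linarith
  have k2 := hle _ m2
  have k3 := hh h hpos' (by linarith)
  have k4 : sin (s - h + e) + sin (s + h + e) = 2 * cos h * sin (s + e) := by
    rw [show s - h + e = (s + e) - h by ring, show s + h + e = (s + e) + h by ring, sin_sub, sin_add (s + e)]
    ring
  rw [hs1] at k3
  have : M * sin (s - h + e) + M * sin (s + h + e) = 2 * cos h * (M * sin (s + e)) := by
    rw [← mul_add, k4]; ring
  linarith

end Pool.Agent.H877Z.Kir
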