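import Pool.Agent.H877Z.Kir.Geo

set_option autoImplicit false

open Set Real Filter Topology

noncomputable section

namespace Pool.Agent.H877Z.Kir

theorem curve_points {L : Type*} [MetricSpace L] (hL : IsLengthSpace L) (a b : L) {ε : ℝ}
    (hε : 0 < ε) : ∃ P : ℝ → L, (∀ θ ∈ Icc (0 : ℝ) 1, dist a (P θ) = θ * dist a b) ∧
      (∀ θ ∈ Icc (0 : ℝ) 1, dist (P θ) b ≤ (1 - θ) * dist a b + ε) ∧
      ∀ θ ∈ Icc (0 : ℝ) 1, ∀ θ' ∈ Icc (0 : ℝ) 1, θ ≤ θ' →
        dist (P θ) (P θ') ≤ (θ' - θ) * dist a b + ε := by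
  obtain ⟨c, hc, c0, c1, hv⟩ := hL a b ε hε
  have hD : 0 ≤ dist a b := dist_nonneg
  have hf : ContinuousOn (fun t => dist a (c t)) (Icc 0 1) :=
    (continuous_const.dist continuous_id).comp_continuousOn hc
  let S : ℝ → Set ℝ := fun θ => {t ∈ Icc (0 : ℝ) 1 | dist a (c t) = θ * dist a b}
  have hSc : ∀ θ, IsClosed (S θ) := fun θ =>
    hf.preimage_isClosed_of_isClosed isClosed_Icc (isClosed_singleton (x := θ * dist a b))
  have hSb : ∀ θ, BddBelow (S θ) := fun θ => ⟨0, fun t ht => ht.1.1⟩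
  have hivt : ∀ θ, 0 ≤ θ → ∀ t ∈ Icc (0 : ℝ) 1, θ * dist a b ≤ dist a (c t) →
      ∃ s ∈ S θ, s ≤ t := by
    intro θ hθ t ht hle
    obtain ⟨s, hs, e⟩ := intermediate_value_Icc ht.1 (hf.mono (Icc_subset_Icc le_rfl ht.2))
      (show θ * dist a b ∈ Icc ((fun t => dist a (c t)) 0) ((fun t => dist a (c t)) t) from
        ⟨by simp only [c0, dist_self]; exact mul_nonneg hθ hD, hle⟩)
    exact ⟨s, ⟨⟨hs.1, hs.2.trans ht.2⟩, e⟩, hs.2⟩
  have hSn : ∀ θ ∈ Icc (0 : ℝ) 1, (S θ).Nonempty := fun θ hθ => by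
    obtain ⟨s, hs, -⟩ := hivt θ hθ.1 1 ⟨zero_le_one, le_rfl⟩
      (by rw [c1]; nlinarith [hθ.2])
    exact ⟨s, hs⟩
  have hm : ∀ θ ∈ Icc (0 : ℝ) 1, sInf (S θ) ∈ S θ := fun θ hθ =>
    (hSc θ).csInf_mem (hSn θ hθ) (hSb θ)
  have hlen : ∀ t t' : ℝ, 0 ≤ t → t ≤ t' → t' ≤ 1 →
      dist a (c t) + dist (c t) (c t') + dist (c t') b ≤ dist a b + ε := by
    intro t t' h0 h1 h2
    have e1 := eVariationOn.Icc_add_Icc c (s := univ) h0 h1 (mem_univ _)
    have e2 := eVariationOn.Icc_add_Icc c (s := univ) (h0.trans h1) h2 (mem_univ _)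
    simp only [univ_inter] at e1 e2
    have b1 := eVariationOn.edist_le c (s := Icc 0 t) (left_mem_Icc.2 h0) (right_mem_Icc.2 h0)
    have b2 := eVariationOn.edist_le c (s := Icc t t') (left_mem_Icc.2 h1) (right_mem_Icc.2 h1)
    have b3 := eVariationOn.edist_le c (s := Icc t' 1) (left_mem_Icc.2 h2) (right_mem_Icc.2 h2)
    have : edist (c 0) (c t) + edist (c t) (c t') + edist (c t') (c 1) ≤
        ENNReal.ofReal (dist a b + ε) := by
      refine le_trans ?_ hv
      rw [← e2, ← e1]
      exact add_le_add (add_le_add b1 b2) b3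
    rw [c0, c1, edist_dist, edist_dist, edist_dist, ← ENNReal.ofReal_add dist_nonneg dist_nonneg,
      ← ENNReal.ofReal_add (add_nonneg dist_nonneg dist_nonneg) dist_nonneg,
      ENNReal.ofReal_le_ofReal_iff (by linarith)] at this
    exact this
  refine ⟨fun θ => c (sInf (S θ)), fun θ hθ => (hm θ hθ).2, fun θ hθ => ?_,
    fun θ hθ θ' hθ' hle => ?_⟩
  · have := hlen _ _ (hm θ hθ).1.1 le_rfl (hm θ hθ).1.2
    rw [(hm θ hθ).2, dist_self] at this
    simp only
    linarith
  · obtain ⟨s, hs, hs'⟩ := hivt θ hθ.1 _ (hm θ' hθ').1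
      (by rw [(hm θ' hθ').2]; exact mul_le_mul_of_nonneg_right hle hD)
    have mono : sInf (S θ) ≤ sInf (S θ') := (csInf_le (hSb θ) hs).trans hs'
    have := hlen _ _ (hm θ hθ).1.1 mono (hm θ' hθ').1.2
    have t := dist_triangle a (c (sInf (S θ'))) b
    rw [(hm θ hθ).2] at this
    rw [(hm θ' hθ').2] at t
    simp only
    linarith

/-- ultrapower -/
def UP (L : Type*) : Type _ := ℕ → L

/-- the ultrafilter -/
abbrev UF : Filter ℕ := (hyperfilter ℕ : Filter ℕ)

theorem exists_ulim {f : ℕ → ℝ} (h0 : ∀ n, 0 ≤ f n) (h1 : ∀ n, f n ≤ π) :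
    Tendsto f UF (𝓝 (limUnder UF f)) := by
  obtain ⟨a, -, ha⟩ := (isCompact_Icc (a := (0 : ℝ)) (b := π)).ultrafilter_le_nhds
    (Ultrafilter.map f (hyperfilter ℕ)) (by
      rw [Ultrafilter.coe_map, le_principal_iff, mem_map]
      exact univ_mem' fun n => ⟨h0 n, h1 n⟩)
  exact tendsto_nhds_limUnder ⟨a, ha⟩

theorem inv_tendsto : Tendsto (fun n : ℕ => 1 / ((n : ℝ) + 1)) UF (𝓝 0) :=
  tendsto_one_div_add_atTop_nhds_zero_nat.mono_left Nat.hyperfilter_le_atTop

section

variable {L : Type*} [MetricSpace L] [hd : Fact (∀ x y : L, dist x y ≤ π)]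

theorem td0 (x y : ℕ → L) : Tendsto (fun n => dist (x n) (y n)) UF
    (𝓝 (limUnder UF fun n => dist (x n) (y n))) :=
  exists_ulim (fun _ => dist_nonneg) (fun _ => hd.out _ _)

instance : PseudoMetricSpace (UP L) where
  dist x y := limUnder UF fun n => dist (x n) (y n)
  dist_self x := tendsto_nhds_unique (td0 x x) (by simp)
  dist_comm x y := by simp only [dist_comm]
  dist_triangle x y z := le_of_tendsto_of_tendsto' (td0 x z) ((td0 x y).add (td0 y z))
    fun _ => dist_triangle _ _ _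

theorem td (x y : UP L) : Tendsto (fun n => dist (x n) (y n)) UF (𝓝 (dist x y)) := td0 x y

/-- constant sequences -/
def cst (a : L) : UP L := fun _ => a

theorem dist_cst (a b : L) : dist (cst a) (cst b) = dist a b :=
  tendsto_nhds_unique (td (cst a) (cst b)) tendsto_const_nhds

theorem tendsto_angleAt {p x y : UP L} (hx : 0 < dist p x) (hy : 0 < dist p y)
    (h : perimeter p x y < 2 * π) :
    Tendsto (fun n => angleAt (p n) (x n) (y n)) UF (𝓝 (angleAt p x y)) := by
  unfold perimeter at h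
  have t1 := dist_triangle_right p x y
  have t2 := dist_triangle p x y
  rw [dist_comm y p] at h
  have sa : 0 < sin (dist p x) := sin_pos_of_pos_of_lt_pi hx (by linarith)
  have sb : 0 < sin (dist p y) := sin_pos_of_pos_of_lt_pi hy (by linarith)
  unfold angleAt modelAngle
  refine (continuous_arccos.tendsto _).comp (Tendsto.div ?_ ?_ (mul_pos sa sb).ne')
  · exact ((continuous_cos.tendsto _).comp (td x y)).sub
      (((continuous_cos.tendsto _).comp (td p x)).mul ((continuous_cos.tendsto _).comp (td p y)))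
  · exact ((continuous_sin.tendsto _).comp (td p x)).mul ((continuous_sin.tendsto _).comp (td p y))

theorem tendsto_per (p x y : UP L) :
    Tendsto (fun n => perimeter (p n) (x n) (y n)) UF (𝓝 (perimeter p x y)) :=
  ((td p x).add (td x y)).add (td y p)

theorem geoAlex_up (hL : IsAlex1 L) : GeoAlex (UP L) where
  diam x y := le_of_tendsto' (td x y) fun _ => hd.out _ _
  quad p x y z hx hy hz h1 h2 h3 := by
    refine le_of_tendsto (((tendsto_angleAt hx hy h1).add (tendsto_angleAt hy hz h2)).add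
      (tendsto_angleAt hz hx h3)) ?_
    filter_upwards [(td p x).eventually (lt_mem_nhds hx), (td p y).eventually (lt_mem_nhds hy),
      (td p z).eventually (lt_mem_nhds hz), (tendsto_per p x y).eventually (gt_mem_nhds h1),
      (tendsto_per p y z).eventually (gt_mem_nhds h2),
      (tendsto_per p z x).eventually (gt_mem_nhds h3)] with n a1 a2 a3 b1 b2 b3
    exact hL.2.2.2 _ _ _ _ (dist_pos.1 a1).symm (dist_pos.1 a2).symm (dist_pos.1 a3).symm b1 b2 b3
  geo x y := by
    rcases eq_or_lt_of_le (dist_nonneg (x := x) (y := y)) with h0 | h0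
    · refine ⟨fun _ => x, ?_, fun _ => rfl, fun z => ?_⟩
      · intro s hs t ht
        rw [← h0] at hs ht
        rw [dist_self, le_antisymm hs.2 hs.1, le_antisymm ht.2 ht.1]; simp
      · rw [dist_comm z, dist_comm z, dist_congr0 h0.symm]
    have hP := fun n : ℕ => curve_points hL.2.1 (x n) (y n) (ε := 1 / ((n : ℝ) + 1)) (by positivity)
    choose P P1 P2 P3 using hP
    set d := dist x y with hddef
    have mem : ∀ s ∈ Icc 0 d, s / d ∈ Icc (0 : ℝ) 1 := fun s hs =>
      ⟨div_nonneg hs.1 h0.le, (div_le_one h0).2 hs.2⟩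
    let γ : ℝ → UP L := fun s n => P n (s / d)
    have key : ∀ s ∈ Icc 0 d, ∀ t ∈ Icc 0 d, s ≤ t → dist (γ s) (γ t) = t - s := by
      intro s hs t ht hst
      have e : (t / d - s / d) * d = t - s := by field_simp
      have l1 : Tendsto (fun n => (t / d - s / d) * dist (x n) (y n)) UF (𝓝 (t - s)) := by
        rw [← e]; exact tendsto_const_nhds.mul (td x y)
      apply le_antisymm
      · have := le_of_tendsto_of_tendsto' (td (γ s) (γ t)) (l1.add inv_tendsto) fun n =>
          P3 n _ (mem s hs) _ (mem t ht) (div_le_div_of_nonneg_right hst h0.le)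
        simpa using this
      · refine le_of_tendsto_of_tendsto' l1 (td (γ s) (γ t)) fun n => ?_
        have t1 := dist_triangle (x n) (P n (s / d)) (P n (t / d))
        rw [P1 n _ (mem s hs), P1 n _ (mem t ht)] at t1
        change _ ≤ dist (P n (s / d)) (P n (t / d))
        linarith
    refine ⟨γ, fun s hs t ht => ?_, fun z => ?_, fun z => ?_⟩
    · rcases le_total s t with c | c
      · rw [key s hs t ht c, abs_sub_comm, abs_of_nonneg (by linarith)]
      · rw [dist_comm, key t ht s hs c, abs_of_nonneg (by linarith)]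
    · have : dist x (γ 0) = 0 := by
        refine tendsto_nhds_unique (td x (γ 0)) (tendsto_const_nhds.congr fun n => ?_)
        change 0 = dist (x n) (P n (0 / d))
        rw [P1 n _ (mem 0 ⟨le_rfl, h0.le⟩)]; simp
      rw [dist_comm z, dist_comm z, dist_congr0 this]
    · have : dist (γ d) y = 0 := by
        refine le_antisymm (le_of_tendsto_of_tendsto' (td (γ d) y) inv_tendsto fun n => ?_)
          dist_nonneg
        have := P2 n _ (mem d ⟨h0.le, le_rfl⟩)
        rw [div_self h0.ne'] at this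
        change dist (P n (d / d)) (y n) ≤ _
        rw [div_self h0.ne']
        linarith
      rw [dist_comm z, dist_comm z, dist_congr0 this]

end

section

variable {L : Type*} [MetricSpace L]

theorem IsAlex1.perim (hL : IsAlex1 L) (x y z : L) : dist x y + dist x z + dist y z ≤ 2 * π := by
  haveI : Fact (∀ x y : L, dist x y ≤ π) := ⟨hL.2.2.1⟩
  have := (geoAlex_up hL).perim (cst x) (cst y) (cst z)
  rwa [dist_cst, dist_cst, dist_cst] at this

theorem IsAlex1.side (hL : IsAlex1 L) (x y : L) {α β ε : ℝ} (hα : 0 ≤ α) (hβ : 0 ≤ β)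
    (h : α + β = dist x y) (h0 : 0 < dist x y) (h1 : dist x y < π) (hε : 0 < ε) :
    ∃ m : L, dist x m = α ∧ ∀ z : L, sin (dist x y) * cos (dist m z) ≤
      sin β * cos (dist x z) + sin α * cos (dist y z) + ε := by
  haveI : Fact (∀ x y : L, dist x y ≤ π) := ⟨hL.2.2.1⟩
  by_contra hcon
  push Not at hcon
  have hm : ∀ n : ℕ, ∃ m : L, dist x m = α ∧ dist m y ≤ β + 1 / ((n : ℝ) + 1) := by
    intro n
    obtain ⟨P, P1, P2, -⟩ := curve_points hL.2.1 x y (ε := 1 / ((n : ℝ) + 1)) (by positivity)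
    have mem : α / dist x y ∈ Icc (0 : ℝ) 1 :=
      ⟨div_nonneg hα h0.le, (div_le_one h0).2 (by linarith)⟩
    refine ⟨P (α / dist x y), ?_, ?_⟩
    · rw [P1 _ mem, div_mul_cancel₀ _ h0.ne']
    · have := P2 _ mem
      rw [sub_mul, div_mul_cancel₀ _ h0.ne'] at this
      linarith
  choose m m1 m2 using hm
  choose z hz using fun n => hcon (m n) (m1 n)
  let M : UP L := m
  let Z : UP L := z
  have d1 : dist M (cst x) = α :=
    tendsto_nhds_unique (td M (cst x)) (tendsto_const_nhds.congr fun n => by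
      change α = dist (m n) x
      rw [dist_comm, m1])
  have d2 : dist M (cst y) = β := by
    apply le_antisymm
    · have := le_of_tendsto_of_tendsto' (td M (cst y)) (tendsto_const_nhds.add inv_tendsto) m2
      simpa using this
    · have := dist_triangle_left (cst x) (cst y) M
      rw [dist_cst, d1] at this
      linarith
  have k := (geoAlex_up hL).sideP (m := M) (x := cst x) (y := cst y)
    (by rw [dist_cst, d1, d2, h]) (by rw [dist_cst]; exact h1) Z
  rw [dist_cst, d1, d2] at k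
  have l1 : Tendsto (fun n => sin (dist x y) * cos (dist (m n) (z n))) UF
      (𝓝 (sin (dist x y) * cos (dist M Z))) :=
    tendsto_const_nhds.mul ((continuous_cos.tendsto _).comp (td M Z))
  have l2 : Tendsto (fun n => sin β * cos (dist x (z n)) + sin α * cos (dist y (z n)) + ε) UF
      (𝓝 (sin β * cos (dist (cst x) Z) + sin α * cos (dist (cst y) Z) + ε)) :=
    ((tendsto_const_nhds.mul ((continuous_cos.tendsto _).comp (td (cst x) Z))).add
      (tendsto_const_nhds.mul ((continuous_cos.tendsto _).comp (td (cst y) Z)))).add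
      tendsto_const_nhds
  have := le_of_tendsto_of_tendsto' l2 l1 fun n => (hz n).le
  linarith

end

theorem cos_add_cos_nonneg {a b : ℝ} (ha : 0 ≤ a) (hb : 0 ≤ b) (h : a + b ≤ π) :
    0 ≤ cos a + cos b := by
  have := cos_anti ha (show a ≤ π - b by linarith) (by linarith)
  rw [cos_pi_sub] at this
  linarith

/-- approximate sums in the cone over `L` -/
theorem IsAlex1.sum {L : Type*} [MetricSpace L] (hL : IsAlex1 L) (x y : L) {s t ε : ℝ}
    (hs : 0 ≤ s) (ht : 0 ≤ t) (hε : 0 < ε) :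
    ∃ (m : L) (R : ℝ), 0 ≤ R ∧ R ^ 2 = s ^ 2 + 2 * s * t * cos (dist x y) + t ^ 2 ∧
      R * cos (dist x m) = s + t * cos (dist x y) ∧
      ∀ z : L, R * cos (dist m z) ≤ s * cos (dist x z) + t * cos (dist y z) + ε := by
  rcases eq_or_lt_of_le (dist_nonneg (x := x) (y := y)) with h0 | h0
  · have e : x = y := dist_eq_zero.1 h0.symm
    subst e
    refine ⟨x, s + t, by linarith, by simp; ring, by simp, fun z => by linarith⟩
  rcases eq_or_lt_of_le (hL.2.2.1 x y) with h1 | h1
  · have k : ∀ z, 0 ≤ cos (dist x z) + cos (dist y z) := fun z =>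
      cos_add_cos_nonneg dist_nonneg dist_nonneg (by linarith [hL.perim x y z])
    rcases le_total t s with c | c
    · refine ⟨x, s - t, by linarith, by rw [h1, cos_pi]; ring, by rw [h1, cos_pi]; simp; ring,
        fun z => ?_⟩
      nlinarith [mul_nonneg ht (k z)]
    · refine ⟨y, t - s, by linarith, by rw [h1, cos_pi]; ring, by rw [h1, cos_pi]; ring,
        fun z => ?_⟩
      nlinarith [mul_nonneg hs (k z)]
  obtain ⟨α, β, R, hα, hβ, e, hR, r1, r2, r3, -, r5⟩ := polar h0 h1 hs ht
  have sd : 0 < sin (dist x y) := sin_pos_of_pos_of_lt_pi h0 h1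
  obtain ⟨m, m1, m2⟩ := hL.side x y hα hβ e h0 h1
    (ε := ε * sin (dist x y) / (R + 1)) (by positivity)
  refine ⟨m, R, hR, r5, by rw [m1, r3], fun z => ?_⟩
  refine le_of_mul_le_mul_left ?_ sd
  have k := mul_le_mul_of_nonneg_left (m2 z) hR
  have k2 : R * (ε * sin (dist x y) / (R + 1)) ≤ ε * sin (dist x y) := by
    rw [← mul_div_assoc, div_le_iff₀ (by linarith)]
    nlinarith [mul_pos hε sd]
  have e1 : R * (sin β * cos (dist x z)) = sin (dist x y) * (s * cos (dist x z)) := by
    rw [← mul_assoc, r1]; ring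
  have e2 : R * (sin α * cos (dist y z)) = sin (dist x y) * (t * cos (dist y z)) := by
    rw [← mul_assoc, r2]; ring
  nlinarith

/-- exact sums in the cone over a geodesic space -/
theorem GeoAlex.sum {X : Type*} [PseudoMetricSpace X] (H : GeoAlex X) (x y : X) {s t : ℝ}
    (hs : 0 ≤ s) (ht : 0 ≤ t) :
    ∃ (m : X) (R : ℝ), 0 ≤ R ∧ R ^ 2 = s ^ 2 + 2 * s * t * cos (dist x y) + t ^ 2 ∧
      R * cos (dist m x) = s + t * cos (dist x y) ∧ R * cos (dist m y) = s * cos (dist x y) + t ∧
      ∀ z : X, R * cos (dist m z) ≤ s * cos (dist x z) + t * cos (dist y z) := by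
  rcases eq_or_lt_of_le (dist_nonneg (x := x) (y := y)) with h0 | h0
  · refine ⟨x, s + t, by linarith, by rw [← h0]; simp; ring, by rw [← h0]; simp,
      by rw [← h0]; simp, fun z => ?_⟩
    rw [← dist_congr0 h0.symm z]; linarith
  rcases eq_or_lt_of_le (H.diam x y) with h1 | h1
  · have k : ∀ z, 0 ≤ cos (dist x z) + cos (dist y z) := fun z =>
      cos_add_cos_nonneg dist_nonneg dist_nonneg (by linarith [H.perim x y z])
    rcases le_total t s with c | c
    · refine ⟨x, s - t, by linarith, by rw [h1, cos_pi]; ring, by rw [h1, cos_pi]; simp; ring,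
        by rw [h1, cos_pi]; ring, fun z => ?_⟩
      nlinarith [mul_nonneg ht (k z)]
    · refine ⟨y, t - s, by linarith, by rw [h1, cos_pi]; ring,
        by rw [dist_comm y x, h1, cos_pi]; ring, by rw [h1, cos_pi]; simp; ring, fun z => ?_⟩
      nlinarith [mul_nonneg hs (k z)]
  obtain ⟨α, β, R, hα, hβ, e, hR, r1, r2, r3, r4, r5⟩ := polar h0 h1 hs ht
  have sd : 0 < sin (dist x y) := sin_pos_of_pos_of_lt_pi h0 h1
  obtain ⟨γ, hγ, g0, g1⟩ := H.geo x y
  have m1 : dist (γ α) x = α := by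
    rw [← g0, dist_comm, hγ.dist_le le_rfl hα (by linarith), sub_zero]
  have m2 : dist (γ α) y = β := by
    rw [← g1, hγ.dist_le hα (by linarith) le_rfl]; linarith
  refine ⟨γ α, R, hR, r5, by rw [m1, r3], by rw [m2, r4], fun z => ?_⟩
  refine le_of_mul_le_mul_left ?_ sd
  have k := mul_le_mul_of_nonneg_left
    (H.sideP (m := γ α) (x := x) (y := y) (by rw [m1, m2, e]) h1 z) hR
  rw [m1, m2] at k
  have e1 : R * (sin β * cos (dist x z)) = sin (dist x y) * (s * cos (dist x z)) := by
    rw [← mul_assoc, r1]; ring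
  have e2 : R * (sin α * cos (dist y z)) = sin (dist x y) * (t * cos (dist y z)) := by
    rw [← mul_assoc, r2]; ring
  nlinarith

end Pool.Agent.H877Z.Kir
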